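import Pool.Agent.Q50.LI.Sl

/-!
# Subspaces which are stable under a part of an `sl_2`-triple

A subspace which is stable under `e` and `s`, and on which the trace of `s` is zero, is stable
under `f`, for every `sl_2`-triple `(e, f, s)`.
-/

set_option linter.unusedSectionVars false

namespace Pool.Agent.Q50.SS

open Module Pool.Agent.H204R3.SP Pool.Agent.Q50.LI

noncomputable section

variable {C V : Type*} [Field C] [AddCommGroup V] [Module C V] [FiniteDimensional C V]

open Module.Basis in
/-- The trace is the sum of the traces on a subspace and on the quotient. -/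
theorem trace_quot (W : Submodule C V) (e : V →ₗ[C] V) (he : W ≤ W.comap e) :
    LinearMap.trace C V e = LinearMap.trace C W (e.restrict he) +
      LinearMap.trace C (V ⧸ W) (W.mapQ W e he) := by
  classical
  let bW := Module.finBasis C W
  let bQ := Module.finBasis C (V ⧸ W)
  let b := sumQuot bW bQ
  rw [LinearMap.trace_eq_matrix_trace C b, LinearMap.trace_eq_matrix_trace C bW,
    LinearMap.trace_eq_matrix_trace C bQ, Matrix.trace, Matrix.trace, Matrix.trace,
    Fintype.sum_sum_type]
  congr 1
  · refine Finset.sum_congr rfl fun i _ => ?_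
    simp only [Matrix.diag_apply, b, sumQuot_inl, LinearMap.toMatrix_apply]
    apply sumQuot_repr_inl_of_mem
  · refine Finset.sum_congr rfl fun l _ => ?_
    simp only [Matrix.diag_apply, LinearMap.toMatrix_apply, sumQuot_repr_inr, b]
    rw [← sumQuot_inr bW bQ l, W.mapQ_apply]
    simp

/-- The derivative of the determinant. -/
theorem det_der {Q : Type*} [AddCommGroup Q] [Module C Q] {κ : Type*} [Fintype κ] [DecidableEq κ]
    (β : Basis κ C Q) (A : Module.End C Q) (w : κ → Q) :
    ∑ j, β.det (Function.update w j (A (w j))) = LinearMap.trace C Q A * β.det w := by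
  have h1 : ∀ j, β.det (Function.update w j (A (w j))) =
      (Matrix.adjugate (β.toMatrix w) * (LinearMap.toMatrix β β A * β.toMatrix w)) j j := by
    intro j
    rw [β.det_apply, Basis.toMatrix_update, ← Matrix.cramer_apply, Matrix.cramer_eq_adjugate_mulVec,
      Matrix.mul_apply]
    refine Finset.sum_congr rfl fun i _ => ?_
    congr 1
    rw [Matrix.mul_apply]
    have h2 := LinearMap.toMatrix_mulVec_repr β β A (w j)
    have h3 := congrFun h2 i
    rw [← h3]
    rfl
  rw [Finset.sum_congr rfl fun j _ => h1 j]
  have h2 : ∑ j, (Matrix.adjugate (β.toMatrix w) * (LinearMap.toMatrix β β A * β.toMatrix w)) j j =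
      Matrix.trace (Matrix.adjugate (β.toMatrix w) *
        (LinearMap.toMatrix β β A * β.toMatrix w)) := rfl
  rw [h2, Matrix.trace_mul_comm, Matrix.mul_assoc, Matrix.mul_adjugate, Matrix.mul_smul,
    Matrix.mul_one, Matrix.trace_smul, ← LinearMap.trace_eq_matrix_trace, β.det_apply, smul_eq_mul,
    mul_comm]

variable [CharZero C]

/-- **Stability under `f`.** -/
theorem stab_f {e f s : Module.End C V} (h1 : e * f - f * e = s)
    (h2 : s * e - e * s = (2 : C) • e) (h3 : s * f - f * s = -((2 : C) • f))
    {U : Submodule C V} (he : ∀ u ∈ U, e u ∈ U) (hs : ∀ u ∈ U, s u ∈ U)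
    (htr : LinearMap.trace C U (s.restrict hs) = 0) : ∀ u ∈ U, f u ∈ U := by
  classical
  have hes : U ≤ U.comap e := he
  have hss : U ≤ U.comap s := hs
  have ts : LinearMap.trace C V s = 0 := by
    rw [← h1, map_sub, LinearMap.trace_mul_comm, sub_self]
  have tsq : LinearMap.trace C (V ⧸ U) (U.mapQ U s hss) = 0 := by
    have h4 := trace_quot U s hss
    rw [ts] at h4
    have h5 : LinearMap.trace C U (s.restrict hss) = 0 := htr
    rw [h5, zero_add] at h4
    exact h4.symm
  have teq : LinearMap.trace C (V ⧸ U) (U.mapQ U e hes) = 0 := by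
    have h4 : (U.mapQ U s hss) * (U.mapQ U e hes) - (U.mapQ U e hes) * (U.mapQ U s hss) =
        (2 : C) • (U.mapQ U e hes) := by
      refine LinearMap.ext fun x => ?_
      obtain ⟨x, rfl⟩ := U.mkQ_surjective x
      have h5 := congrArg U.mkQ (LinearMap.congr_fun h2 x)
      rw [LinearMap.sub_apply, map_sub, LinearMap.smul_apply, map_smul] at h5
      exact h5
    have h5 := congrArg (LinearMap.trace C (V ⧸ U)) h4
    rw [map_sub, LinearMap.trace_mul_comm, sub_self, map_smul, smul_eq_mul] at h5
    exact (mul_eq_zero.1 h5.symm).resolve_left two_ne_zero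
  set β := Module.finBasis C (V ⧸ U)
  let φ : MultilinearMap C (fun _ : Fin (finrank C (V ⧸ U)) => V) C :=
    β.det.toMultilinearMap.compLinearMap fun _ => U.mkQ
  have hφ : ∀ v, φ v = β.det fun j => U.mkQ (v j) := fun _ => rfl
  have hup : ∀ (v : Fin (finrank C (V ⧸ U)) → V) (j) (x : V),
      (fun l => U.mkQ (Function.update v j x l)) =
        Function.update (fun l => U.mkQ (v l)) j (U.mkQ x) := by
    intro v j x
    funext l
    by_cases hl : l = j
    · subst hl
      rw [Function.update_self, Function.update_self]
    · rw [Function.update_of_ne hl, Function.update_of_ne hl]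
  have key : ∀ (Z : Module.End C V) (hZ : U ≤ U.comap Z),
      LinearMap.trace C (V ⧸ U) (U.mapQ U Z hZ) = 0 → Kills Z φ := by
    intro Z hZ ht v
    have h4 := det_der β (U.mapQ U Z hZ) fun j => U.mkQ (v j)
    rw [ht, zero_mul] at h4
    rw [← h4]
    refine Finset.sum_congr rfl fun j _ => ?_
    rw [hφ, hup]
    rfl
  have hf := kills_f h1 h2 h3 (key e hes teq) (key s hss tsq)
  intro u hu
  by_contra hfu
  have hq : U.mkQ (f u) ≠ 0 := by
    rw [Submodule.mkQ_apply, Ne, Submodule.Quotient.mk_eq_zero]
    exact hfu
  -- a basis vector can be replaced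
  have hex : ∃ i, β.repr (U.mkQ (f u)) i ≠ 0 := by
    by_contra hcon
    push Not at hcon
    exact hq (β.repr.map_eq_zero_iff.1 (Finsupp.ext hcon))
  obtain ⟨i, hi⟩ := hex
  choose w hw using fun j => U.mkQ_surjective (β j)
  have h4 := hf (Function.update w i u)
  rw [Finset.sum_eq_single i] at h4
  · rw [Function.update_self, Function.update_idem, hφ, hup] at h4
    have h5 : (fun l => U.mkQ (w l)) = β := funext hw
    rw [h5, β.det_apply, Basis.toMatrix_update, Basis.toMatrix_self, ← Matrix.cramer_apply,
      Matrix.cramer_one] at h4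
    exact hi h4
  · intro j _ hj
    rw [hφ]
    refine β.det.map_coord_zero i ?_
    rw [Function.update_of_ne hj.symm, Function.update_self]
    rw [Submodule.mkQ_apply, Submodule.Quotient.mk_eq_zero]
    exact hu
  · intro h5
    exact absurd (Finset.mem_univ _) h5

end

end Pool.Agent.Q50.SS
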