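import Pool.Agent.Q50.SS.Main

/-!
# Semisimplicity at every prime from the Tate conjecture at one prime
-/

open CategoryTheory AlgebraicGeometry

universe u w

set_option linter.unusedSectionVars false

namespace Pool.Agent.Q50.SS

open Module
open Pool.Agent.H914 Pool.Agent.H914.VarClass Pool.Agent.H914.VarClass.Obj
  Pool.Agent.H914.WeilCohomology
open Pool.Agent.Y133.Half
open Pool.Agent.Q55 (GaloisAction TateConj)
open Pool.Agent.Q60.TD (SemisimpleAt IsAmpleLike power)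
open Pool.Agent.Q50.MTC (IsTate IsAlg isAlg_iff' IsLadic)
open Pool.Agent.Q50.LI (Artin FrobeniusElements)
open Pool.Agent.Q55.Moo (DetCyclotomic)

variable {k : Type u} [Field k] {𝒱 : VarClass k} {ops : CycleOps 𝒱}
  {W E E₀ : WeilCohomology.{u, 0} ops} {X Y : 𝒱.Obj} {n : ℕ} {Γ : Type w} [Group Γ]
  {G : GaloisAction E Γ} {G₀ : GaloisAction E₀ Γ}

theorem main [Algebra W.K E₀.K] [Algebra W.K E.K] [Algebra E₀.K ℂ] [Algebra E.K ℂ]
    [TopologicalSpace Γ] (hrat : ∀ r : W.K, ∃ q : ℚ, (q : W.K) = r)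
    (A₀ : Artin W E₀) (A : Artin W E)
    {ℓ : ℕ} [Fact ℓ.Prime] {e : E.K ≃+* ℚ_[ℓ]} (hX : IsLadic (G.ρ X) G.χ e)
    {D : X.Cycles} (hD : IsAmpleLike E₀ X D) (hdet₀ : DetCyclotomic G₀ X)
    (hdet : DetCyclotomic G X)
    (hF : (∀ i, SemisimpleAt G₀ X i) → FrobeniusElements G₀ G X)
    (hTC₀ : ∀ n j c, IsTate G₀ (pw X n) j c → IsAlg E₀ (pw X n) j c) (i : ℕ) :
    SemisimpleAt G X i := by
  have hTC : ∀ n j c, Pool.Agent.Q55.IsTate G₀ (pw X n) j c →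
      c ∈ spanCycles E₀ (pw X n) (j : ℤ) := fun n j c hc => isAlg_iff'.1 (hTC₀ n j c hc)
  have hss₀ : ∀ i, SemisimpleAt G₀ X i := fun i =>
    Pool.Agent.Q55.Moo.semisimple_of_tate (G := G₀) (X := X) hD 0 i hdet₀ fun j c hc =>
      hTC _ j c hc
  exact ss_all hrat A₀.toArtC A.toArtC hX hss₀ hTC (hF hss₀) hdet i

end Pool.Agent.Q50.SS
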