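import Pool.Agent.Q50.LI.Fin

/-!
# A torus which is its own centraliser
-/

open CategoryTheory AlgebraicGeometry TensorProduct

universe u w

set_option linter.unusedSectionVars false

namespace Pool.Agent.Q50.SS

open Module Pool.Agent.H204R3.SP Pool.Agent.W516.DR
open Pool.Agent.H914 Pool.Agent.H914.VarClass Pool.Agent.H914.VarClass.Obj
  Pool.Agent.H914.WeilCohomology
open Pool.Agent.Y133.Half Pool.Agent.Q50.FP Pool.Agent.W516.KC Pool.Agent.W516.KC2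
open Pool.Agent.Q55 (GaloisAction SubAction Virtually TateConj tatePred)
open Pool.Agent.Q60.TD (SemisimpleAt rep rep_apply exists_good act_one)
open Pool.Agent.Q50.LI

variable {k : Type u} [Field k] {𝒱 : VarClass k} {ops : CycleOps 𝒱}
  {W E E₀ : WeilCohomology.{u, 0} ops} {X Y : 𝒱.Obj} {n : ℕ} {Γ : Type w} [Group Γ]
  {G : GaloisAction E Γ} {G₀ : GaloisAction E₀ Γ}
  [Algebra W.K E₀.K] [Algebra W.K E.K] [Algebra E₀.K ℂ] [Algebra E.K ℂ]
  (hrat : ∀ r : W.K, ∃ q : ℚ, (q : W.K) = r) (A₀ : ArtC W E₀) (A : ArtC W E)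

include hrat A₀ A in
/-- **A torus in the Lie algebra of the `ℓ`-adic Tate classes which is its own centraliser in the
Lie algebra of the algebraic classes.** -/
theorem exists_torus (hss₀ : ∀ i, SemisimpleAt G₀ X i)
    (hTC₀ : ∀ n j c, Pool.Agent.Q55.IsTate G₀ (pw X n) j c →
      c ∈ spanCycles E₀ (pw X n) (j : ℤ))
    (hF : FrobeniusElements G₀ G X) : ∃ s ∈ (G.ρ X).dom, ∀ Z ∈ (bcE E X).xs (gp E X),
      (∀ T ∈ torE G X s, T * Z = Z * T) → Z ∈ torE G X s := by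
  -- the degree projectors
  have hp : ∀ i, ∃ S : List (Σ Y : 𝒱.Obj, (Y.prod Y).Cycles),
      (∀ p ∈ S, (p.1.prod p.1).IsCyc p.1.dim p.2) ∧
      ∀ γ : Γ, (∀ p ∈ S, TraceFormula G₀ G p.1 p.2 γ) → TEq A₀ A G₀ G (pE W X i) γ := by
    intro i
    refine exists_teq hrat A₀ A (hTC₀ 1 X.dim) ?_ ⟨⊤, inferInstance, fun s _ hs => ?_⟩
    · rw [ext_pE, pE_dg]
    · rw [ext_pE, pE_Ro hs]
  choose S hS hS' using hp
  -- the projector on the square
  have nd := gp_nondeg_W A₀ hTC₀ hss₀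
  have nd₀ := gp_nondeg A₀ A₀ hTC₀ hss₀ (X := X)
  have nd₁ := gp_nondeg A A₀ hTC₀ hss₀ (X := X)
  have cd₀ : ∀ Z ∈ kaS E₀ X, Z * dg E₀ X = dg E₀ X * Z := fun Z hZ => kaS_dg A₀ A₀ hTC₀ hZ
  have cd₁ : ∀ Z ∈ kaS E X, Z * dg E X = dg E X * Z := fun Z hZ => kaS_dg A A₀ hTC₀ hZ
  have br₀ := gp_br cd₀
  have br₁ := gp_br cd₁
  have e₀ : der (gp E₀ X) = (bcA A₀ X).xs (der (gp W X)) := by
    rw [gp_ext A₀, (bcA A₀ X).der_xs]
  have e₁ : der (gp E X) = (bcA A X).xs (der (gp W X)) := by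
    rw [gp_ext A, (bcA A X).der_xs]
  obtain ⟨Δ₁, hΔ₁, good₀⟩ := exists_gd G₀ X 1
  obtain ⟨Δ₂, hΔ₂, good₁⟩ := exists_gd G X 1
  obtain ⟨Δ₃, hΔ₃, stab₀⟩ := kaS_stab G₀ X
  obtain ⟨Δ₄, hΔ₄, stab₁⟩ := kaS_stab G X
  have ue₀ : A₀.ext (uu W X (der (gp W X)) nd) = uu E₀ X (der (gp E₀ X)) nd₀ := by
    have h1 := (bcA A₀ X).nondeg_xs nd
    have h2 := uu_ext A₀ nd h1
    rw [h2]
    congr 1
    exact e₀.symm
  have ue₁ : A.ext (uu W X (der (gp W X)) nd) = uu E X (der (gp E X)) nd₁ := by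
    have h1 := (bcA A X).nondeg_xs nd
    have h2 := uu_ext A nd h1
    rw [h2]
    congr 1
    exact e₁.symm
  have uc₀ : ∀ s ∈ Δ₁ ⊓ Δ₃, uu E₀ X (der (gp E₀ X)) nd₀ * Ro G₀ (pw X 1) s =
      Ro G₀ (pw X 1) s * uu E₀ X (der (gp E₀ X)) nd₀ := fun s hs =>
    uu_act (good₀ s hs.1) (Ro_inv (good₀ s hs.1).mem).1
      (fun z hz => der_conj (good₀ s hs.1).mem (stab₀ s hs.2).2 hz)
      (fun z hz => by
        have h1 := der_conj (s := s⁻¹) (inv_mem (good₀ s hs.1).mem)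
          (stab₀ s⁻¹ (inv_mem hs.2)).2 hz
        rwa [inv_inv] at h1)
  have uc₁ : ∀ s ∈ Δ₂ ⊓ Δ₄, uu E X (der (gp E X)) nd₁ * Ro G (pw X 1) s =
      Ro G (pw X 1) s * uu E X (der (gp E X)) nd₁ := fun s hs =>
    uu_act (good₁ s hs.1) (Ro_inv (good₁ s hs.1).mem).1
      (fun z hz => der_conj (good₁ s hs.1).mem (stab₁ s hs.2).2 hz)
      (fun z hz => by
        have h1 := der_conj (s := s⁻¹) (inv_mem (good₁ s hs.1).mem)
          (stab₁ s⁻¹ (inv_mem hs.2)).2 hz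
        rwa [inv_inv] at h1)
  obtain ⟨S', hS₁, hS₂⟩ := exists_teq (Y := pw X 1) (G₀ := G₀) (G := G) hrat A₀ A
    (tc_sq (hTC₀ 3 (pw X 1).dim))
    (w := uu W X (der (gp W X)) nd) (by
      rw [ue₀]
      refine uu_dg fun z hz => ?_
      rw [← gp_dg cd₀ (der_sub _ br₀ hz), sub_self]
      exact Submodule.zero_mem _) ⟨Δ₁ ⊓ Δ₃, inferInstance, fun s hs _ => by
        rw [ue₀]
        exact uc₀ s hs⟩
  -- the Frobenius element
  obtain ⟨γ, hγ, ⟨q, hq₀, hq₁⟩, htf, hmax⟩ := hF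
    ((List.range (2 * X.dim + 1)).flatMap S ++ S') (by
      intro p hp
      rcases List.mem_append.1 hp with h | h
      · obtain ⟨i, _, hi⟩ := List.mem_flatMap.1 h
        exact hS i p hi
      · exact hS₁ p h) ((Δ₁ ⊓ Δ₃) ⊓ (Δ₂ ⊓ Δ₄)) inferInstance
  have tp : ∀ i, i ≤ 2 * X.dim → TEq A₀ A G₀ G (pE W X i) γ := fun i hi =>
    hS' i γ fun p hp => htf p (List.mem_append_left _ (List.mem_flatMap.2
      ⟨i, List.mem_range.2 (by omega), hp⟩))
  have tu : TEq A₀ A G₀ G (uu W X (der (gp W X)) nd) γ := hS₂ γ fun p hp =>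
    htf p (List.mem_append_right _ hp)
  have g₀ := good₀ γ hγ.1.1
  have g₁ := good₁ γ hγ.2.1
  -- a neat power
  obtain ⟨N₀, hN₀, neat₀⟩ := exists_neat ((Ro G₀ X γ).baseChange ℂ)
  obtain ⟨N₁, hN₁, neat₁⟩ := exists_neat ((Ro G X γ).baseChange ℂ)
  set N := N₀ * N₁ with hNdef
  have hN : 0 < N := Nat.mul_pos hN₀ hN₁
  have n₀ : Neat ((Ro G₀ X (γ ^ N)).baseChange ℂ) := by
    have h1 := (bcE E₀ X).ext_pow (Ro G₀ X γ) N
    rw [Ro_pow g₀.mem, h1, hNdef, pow_mul]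
    exact neat_pow neat₀ hN₁
  have n₁ : Neat ((Ro G X (γ ^ N)).baseChange ℂ) := by
    have h1 := (bcE E X).ext_pow (Ro G X γ) N
    rw [Ro_pow g₁.mem, h1, hNdef, mul_comm N₀ N₁, pow_mul]
    exact neat_pow neat₁ hN₀
  have hs : γ ^ N ∈ (Δ₁ ⊓ Δ₃) ⊓ (Δ₂ ⊓ Δ₄) := pow_mem hγ N
  have s₀ := good₀ _ hs.1.1
  have s₁ := good₁ _ hs.2.1
  have hx : algebraMap E₀.K ℂ (G₀.χ (γ ^ N)) = algebraMap E.K ℂ (G.χ (γ ^ N)) := by
    rw [map_pow, map_pow, Units.val_pow_eq_pow_val, Units.val_pow_eq_pow_val, hq₀, hq₁, map_pow,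
      map_pow, map_ratCast, map_ratCast]
  -- the dimension of the centraliser in the derived algebra
  have ui : uu W X (der (gp W X)) nd * uu W X (der (gp W X)) nd = uu W X (der (gp W X)) nd :=
    uu_idem
  have dimc : finrank E₀.K (der (gp E₀ X) ⊓ (adj (Ro G₀ X (γ ^ N))).maxGenEigenspace 0 :
        Submodule E₀.K (Module.End E₀.K (E₀.H X))) =
      finrank E.K (der (gp E X) ⊓ (adj (Ro G X (γ ^ N))).maxGenEigenspace 0 :
        Submodule E.K (Module.End E.K (E.H X))) := by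
    rw [← uu_gen (hD := nd₀) s₀ (Ro_inv s₀.mem).1 (Ro_inv s₀.mem).2
      (fun z hz => der_conj s₀.mem (stab₀ _ hs.1.2).2 hz) (fun z hz => by
        have h1 := der_conj (s := (γ ^ N)⁻¹) (inv_mem s₀.mem) (stab₀ _ (inv_mem hs.1.2)).2 hz
        rwa [inv_inv] at h1),
      ← uu_gen (hD := nd₁) s₁ (Ro_inv s₁.mem).1 (Ro_inv s₁.mem).2
      (fun z hz => der_conj s₁.mem (stab₁ _ hs.2.2).2 hz) (fun z hz => by
        have h1 := der_conj (s := (γ ^ N)⁻¹) (inv_mem s₁.mem) (stab₁ _ (inv_mem hs.2.2)).2 hz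
        rwa [inv_inv] at h1)]
    refine mult_eqF (C := ℂ) (fun m => ?_) (by
      rw [map_pow (algebraMap E₀.K ℂ), map_pow (algebraMap E.K ℂ), hx])
    have h1 := teq_all A₀ A tu ui g₀.mem' g₁.mem' N (by rw [ue₀]; exact uc₀ _ hs.1)
      (by rw [ue₁]; exact uc₁ _ hs.2) m
    rw [ue₀, ue₁] at h1
    exact h1
  -- the centraliser of the torus
  have cent : ∀ Z ∈ (bcE E X).xs (gp E X), (∀ T ∈ torE G X (γ ^ N), T * Z = Z * T) →
      Z ∈ torE G X (γ ^ N) := by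
    intro Z hZ hZ'
    refine cent_of_count (bcE E₀ X) (bcE E X) (dat s₀.mem) (dat s₁.mem) hx ?_ br₀ br₁ nd₀ nd₁
      (by rw [finrank_gp A₀, finrank_gp A]) (by rw [finrank_dgp A₀, finrank_dgp A]) dimc
      ((torE_le s₀.mem).trans ((bcE E₀ X).xs_mono galp_le_gp))
      ((torE_le s₁.mem).trans ((bcE E X).xs_mono galp_le_gp)) n₀ n₁
      (ss_pow g₀.mem hmax.semisimple N) ?_ hZ hZ'
    · intro i m
      by_cases hi : i ≤ 2 * X.dim
      · have h1 := teq_all A₀ A (tp i hi) (LinearMap.ext fun x => proj_same _ (pE_mem i x))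
          g₀.mem g₁.mem N (by rw [ext_pE, pE_Ro s₀.mem]) (by rw [ext_pE, pE_Ro s₁.mem]) m
        rw [ext_pE, ext_pE] at h1
        exact h1
      · rw [pE_bot (by omega), pE_bot (by omega), zero_mul, zero_mul]
        by_cases hm : m = 0
        · rw [hm, pow_zero, pow_zero, LinearMap.trace_one, LinearMap.trace_one, finrank_H A₀,
            finrank_H A, map_natCast, map_natCast]
        · rw [zero_pow hm, zero_pow hm, map_zero, map_zero, map_zero, map_zero]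
    · intro z hz hc
      rw [gp_eq_galp hTC₀] at hz
      exact mem_torE g₀.mem hmax hN hz hc
  exact ⟨γ ^ N, s₁.mem, cent⟩


end Pool.Agent.Q50.SS
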