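import Mathlib
import Pool.Agent.Helper462.Cb.Chev

/-!
# Complete reducibility

Weyl's theorem for a Lie algebra of endomorphisms with nondegenerate trace form; a copy of
`Pool.Agent.Y925.RM.Weyl` with fewer imports.
-/

set_option autoImplicit false

open Module LieAlgebra

namespace Pool.Agent.Q50.SS.Weyl

/-- closed under brackets -/
def IsLie {K : Type} [Field K] {V : Type} [AddCommGroup V] [Module K V]
    (L : Submodule K (End K V)) : Prop := ∀ X ∈ L, ∀ Y ∈ L, X * Y - Y * X ∈ L

/-- the trace form of `V` is nondegenerate on `L` -/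
def NonDeg {K : Type} [Field K] {V : Type} [AddCommGroup V] [Module K V]
    (L : Submodule K (End K V)) : Prop :=
  ∀ X ∈ L, (∀ Y ∈ L, LinearMap.trace K V (X * Y) = 0) → X = 0

/-- diagonalizable endomorphisms are semisimple -/
theorem ss {K V : Type} [Field K] [AddCommGroup V] [Module K V] [FiniteDimensional K V]
    (f : End K V) (h : ⨆ μ, End.eigenspace f μ = ⊤) : f.IsSemisimple := by
  classical
  have hfin : {μ | f.HasEigenvalue μ}.Finite := End.finite_hasEigenvalue f
  set p : Polynomial K := ∏ μ ∈ hfin.toFinset, (Polynomial.X - Polynomial.C μ) with hp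
  have hsq : Squarefree p := by
    have h1 : p.Separable := by
      rw [hp]
      exact Polynomial.separable_prod_X_sub_C_iff' (s := hfin.toFinset) (f := fun μ => μ) |>.2
        (fun x _ y _ hxy => hxy)
    exact h1.squarefree
  refine End.isSemisimple_of_squarefree_aeval_eq_zero hsq ?_
  have hle : (⨆ μ, End.eigenspace f μ) ≤ LinearMap.ker (Polynomial.aeval f p) := by
    refine iSup_le fun μ => ?_
    intro v hv
    rw [LinearMap.mem_ker]
    by_cases hv0 : v = 0
    · rw [hv0, map_zero]
    have hμ : μ ∈ hfin.toFinset := by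
      rw [Set.Finite.mem_toFinset]
      exact End.hasEigenvalue_of_hasEigenvector ⟨hv, hv0⟩
    rw [hp, ← Finset.prod_erase_mul _ _ hμ, map_mul, Module.End.mul_apply, map_sub,
      Polynomial.aeval_X, Polynomial.aeval_C]
    have h1 : (f - algebraMap K (End K V) μ) v = 0 := by
      rw [LinearMap.sub_apply, End.mem_eigenspace_iff.1 hv, Module.algebraMap_end_apply, sub_self]
    rw [h1, map_zero]
  rw [h, top_le_iff] at hle
  exact LinearMap.ker_eq_top.1 hle

section

attribute [local instance 100] LieRing.ofAssociativeRing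

/-- brackets with elements of the radical act nilpotently -/
theorem nil {C : Type} [Field C] [CharZero C] [IsAlgClosed C]
    {L : Type} [LieRing L] [LieAlgebra C L] [FiniteDimensional C L] (z x y : L)
    (hz : z ∈ radical C L) (n : ℕ) : ∀ (V : Type) [AddCommGroup V] [Module C V]
      [LieRingModule L V] [LieModule C L V] [FiniteDimensional C V], finrank C V = n →
      ∃ k : ℕ, ∀ v : V, (fun v : V => ⁅⁅z, x⁆, ⁅y, v⁆⁆)^[k] v = 0 := by
  induction n using Nat.strong_induction_on with
  | _ n ih =>
    intro V _ _ _ _ _ hn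
    have : IsAtomic (LieSubmodule C L V) := inferInstance
    rcases IsAtomic.eq_bot_or_exists_atom_le (⊤ : LieSubmodule C L V) with h | ⟨S, hS, -⟩
    · refine ⟨0, fun v => ?_⟩
      have h1 : v ∈ (⊤ : LieSubmodule C L V) := trivial
      rw [h, LieSubmodule.mem_bot] at h1
      exact h1
    · obtain ⟨c, hc⟩ := Cb.a19237_R S hS z hz
      have hlt : finrank C (V ⧸ S.toSubmodule) < n := by
        have h1 := Submodule.finrank_quotient_add_finrank S.toSubmodule
        have h2 : 0 < finrank C S.toSubmodule := by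
          rw [Module.finrank_pos_iff, Submodule.nontrivial_iff_ne_bot]
          intro h3
          apply hS.1
          rw [← LieSubmodule.toSubmodule_inj, h3]
          rfl
        omega
      obtain ⟨k, hk⟩ := ih _ hlt (V ⧸ S) rfl
      refine ⟨k + 1, fun v => ?_⟩
      have h1 : ∀ (j : ℕ) (v : V), (LieSubmodule.Quotient.mk
          ((fun v : V => ⁅⁅z, x⁆, ⁅y, v⁆⁆)^[j] v) : V ⧸ S) =
          (fun v : V ⧸ S => ⁅⁅z, x⁆, ⁅y, v⁆⁆)^[j] (LieSubmodule.Quotient.mk v) := by
        intro j
        induction j with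
        | zero => intro v; rfl
        | succ j ih' =>
          intro v
          rw [Function.iterate_succ_apply, Function.iterate_succ_apply, ih']
          rfl
      have h2 : (fun v : V => ⁅⁅z, x⁆, ⁅y, v⁆⁆)^[k] v ∈ S := by
        rw [← LieSubmodule.Quotient.mk_eq_zero', h1, hk]
      rw [Function.iterate_succ_apply']
      set s := (fun v : V => ⁅⁅z, x⁆, ⁅y, v⁆⁆)^[k] v with hs
      have h3 : ⁅y, s⁆ ∈ S := S.lie_mem h2
      show ⁅⁅z, x⁆, ⁅y, s⁆⁆ = 0
      rw [lie_lie, hc _ (S.lie_mem h3), hc _ h3, lie_smul, sub_self]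

/-- the Lie algebra `L` -/
def LL {K V : Type} [Field K] [AddCommGroup V] [Module K V] (L : Submodule K (End K V))
    (hL : IsLie L) : LieSubalgebra K (Module.End K V) :=
  { L with
    lie_mem' := fun {x y} hx hy => by
      rw [Ring.lie_def]
      exact hL x hx y hy }

/-- the radical is central -/
theorem rad {K V : Type} [Field K] [CharZero K] [IsAlgClosed K] [AddCommGroup V] [Module K V]
    [FiniteDimensional K V] (L : Submodule K (End K V)) (hL : IsLie L) (hN : NonDeg L)
    (z : LL L hL) (hz : z ∈ radical K (LL L hL)) (X : End K V) (hX : X ∈ L) :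
    (z : End K V) * X = X * z := by
  haveI : FiniteDimensional K (LL L hL) := inferInstanceAs (FiniteDimensional K L)
  rw [← sub_eq_zero]
  refine hN _ (hL _ z.2 _ hX) fun Y hY => ?_
  obtain ⟨k, hk⟩ := nil z (⟨X, hX⟩ : LL L hL) (⟨Y, hY⟩ : LL L hL) hz _ V rfl
  have h1 : (((z : End K V) * X - X * z) * Y) ^ k = 0 := by
    ext v
    have h2 : ∀ (j : ℕ) (v : V), ((((z : End K V) * X - X * z) * Y) ^ j) v =
        (fun v : V => ⁅⁅z, (⟨X, hX⟩ : LL L hL)⁆, ⁅(⟨Y, hY⟩ : LL L hL), v⁆⁆)^[j] v := by
      intro j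
      induction j with
      | zero => intro v; rfl
      | succ j ih =>
        intro v
        rw [pow_succ, Module.End.mul_apply, ih, Function.iterate_succ_apply]
        rfl
    rw [h2, hk]
    rfl
  exact (LinearMap.isNilpotent_trace_of_isNilpotent ⟨k, h1⟩).eq_zero

theorem weyl {K : Type} [Field K] [CharZero K] [IsAlgClosed K] {V : Type}
    [AddCommGroup V] [Module K V] [FiniteDimensional K V] (L : Submodule K (End K V))
    (hL : IsLie L) (hN : NonDeg L)
    (hdiag : ∀ z ∈ L, (∀ X ∈ L, z * X = X * z) → ⨆ μ, End.eigenspace z μ = ⊤)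
    (W : Submodule K V) (hW : ∀ X ∈ L, ∀ x ∈ W, X x ∈ W) :
    ∃ P : End K V, (∀ X ∈ L, X * P = P * X) ∧ (∀ x, P x ∈ W) ∧ ∀ x ∈ W, P x = x := by
  haveI : FiniteDimensional K (LL L hL) := inferInstanceAs (FiniteDimensional K L)
  have hsplit : Cb.a19237_split K := fun L _ _ _ _ V _ _ _ _ _ V₁ h1 h2 =>
    Cb.splitting_all K L V V₁ h1 h2
  have hcomm : ∀ z ∈ radical K (LL L hL), ∀ X ∈ L, (z : End K V) * X = X * z :=
    fun z hz X hX => rad L hL hN z hz X hX
  -- the blocks
  let E : (radical K (LL L hL) → K) → LieSubmodule K (LL L hL) V := fun χ =>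
    { carrier := {v | ∀ i : radical K (LL L hL), ((i : LL L hL) : End K V) v = χ i • v}
      add_mem' := by
        intro a b ha hb i
        rw [map_add, ha, hb, smul_add]
      zero_mem' := by
        intro i
        rw [map_zero, smul_zero]
      smul_mem' := by
        intro c a ha i
        rw [map_smul, ha, smul_comm]
      lie_mem := by
        intro X v hv i
        have h1 := hcomm i i.2 X X.2
        show ((i : LL L hL) : End K V) ((X : End K V) v) = χ i • (X : End K V) v
        rw [← Module.End.mul_apply, h1, Module.End.mul_apply, hv, map_smul] }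
  have hE : ∀ χ v, v ∈ E χ ↔ ∀ i : radical K (LL L hL), ((i : LL L hL) : End K V) v = χ i • v :=
    fun χ v => Iff.rfl
  have hsup : sSup (Set.range E) = ⊤ := by
    rw [sSup_range, ← LieSubmodule.toSubmodule_inj, LieSubmodule.iSup_toSubmodule,
      LieSubmodule.top_toSubmodule]
    have h1 := Module.End.iSup_iInf_maxGenEigenspace_eq_top_of_iSup_maxGenEigenspace_eq_top_of_commute
      (K := K) (M := V) (fun i : radical K (LL L hL) => ((i : LL L hL) : End K V))
      (fun i j _ => hcomm i i.2 _ (j : LL L hL).2)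
      (fun i => Module.End.iSup_maxGenEigenspace_eq_top _)
    rw [← h1]
    refine iSup_congr fun χ => ?_
    ext v
    rw [Submodule.mem_iInf]
    refine forall_congr' fun i => ?_
    rw [(ss _ (hdiag _ (i : LL L hL).2
      (hcomm i i.2))).isFinitelySemisimple.maxGenEigenspace_eq_eigenspace, End.mem_eigenspace_iff]
  have hcompl : ∀ W : LieSubmodule K (LL L hL) V, ∃ W', IsCompl W W' := by
    refine Cb.a19237_S (Set.range E) hsup ?_
    rintro X ⟨χ, rfl⟩ W hW
    obtain ⟨K₀, hK₀⟩ := Cb.a19237_B hsplit (LL L hL) (E χ) (by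
      intro z hz
      refine ⟨χ ⟨z, hz⟩, fun v => ?_⟩
      apply Subtype.ext
      exact (hE χ v).1 v.2 ⟨z, hz⟩) (W.comap (E χ).incl)
    refine ⟨K₀.map (E χ).incl, ?_, ?_, ?_⟩
    · rintro x hx
      rw [LieSubmodule.mem_map] at hx
      obtain ⟨y, _, rfl⟩ := hx
      exact y.2
    · rw [eq_bot_iff]
      intro x hx
      rw [LieSubmodule.mem_inf, LieSubmodule.mem_map] at hx
      obtain ⟨hxW, y, hy, rfl⟩ := hx
      have h1 : y ∈ W.comap (E χ).incl := by
        rw [LieSubmodule.mem_comap]; exact hxW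
      have h2 : y ∈ (⊥ : LieSubmodule K (LL L hL) (E χ)) := by
        rw [← hK₀.inf_eq_bot, LieSubmodule.mem_inf]
        exact ⟨h1, hy⟩
      rw [LieSubmodule.mem_bot] at h2
      rw [h2, LieSubmodule.mem_bot]
      rfl
    · apply le_antisymm
      · apply sup_le hW
        rintro x hx
        rw [LieSubmodule.mem_map] at hx
        obtain ⟨y, _, rfl⟩ := hx
        exact y.2
      · intro x hx
        have h1 : (⟨x, hx⟩ : E χ) ∈ W.comap (E χ).incl ⊔ K₀ := by
          rw [hK₀.sup_eq_top]; trivial
        rw [LieSubmodule.mem_sup] at h1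
        obtain ⟨y, hy, z, hz, hyz⟩ := h1
        rw [LieSubmodule.mem_sup]
        rw [LieSubmodule.mem_comap] at hy
        refine ⟨y, hy, z, ?_, congrArg Subtype.val hyz⟩
        rw [LieSubmodule.mem_map]
        exact ⟨z, hz, rfl⟩
  obtain ⟨W', hW'⟩ := hcompl { W with lie_mem := fun {x m} hm => hW x.1 x.2 m hm }
  set W₀ : LieSubmodule K (LL L hL) V := { W with lie_mem := fun {x m} hm => hW x.1 x.2 m hm }
    with hW₀
  have hc : IsCompl W W'.toSubmodule := by
    have h1 := hW'.inf_eq_bot
    have h2 := hW'.sup_eq_top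
    constructor
    · rw [disjoint_iff, eq_bot_iff]
      rintro v ⟨hv1, hv2⟩
      have h3 : v ∈ W₀ ⊓ W' := by
        rw [LieSubmodule.mem_inf]
        exact ⟨hv1, hv2⟩
      rw [h1, LieSubmodule.mem_bot] at h3
      rw [Submodule.mem_bot]
      exact h3
    · rw [codisjoint_iff, eq_top_iff]
      intro v _
      have h3 : v ∈ W₀ ⊔ W' := by
        rw [h2]; trivial
      rw [LieSubmodule.mem_sup] at h3
      rw [Submodule.mem_sup]
      exact h3
  have hdec : ∀ v : V, ∃ a ∈ W, ∃ b ∈ W'.toSubmodule, a + b = v := by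
    intro v
    have h3 : v ∈ W ⊔ W'.toSubmodule := by rw [hc.sup_eq_top]; trivial
    rwa [Submodule.mem_sup] at h3
  set P : End K V := W.subtype ∘ₗ Submodule.projectionOnto W W'.toSubmodule hc with hP
  have hP1 : ∀ a ∈ W, P a = a := by
    intro a ha
    have := Submodule.projectionOnto_apply_left hc ⟨a, ha⟩
    show ((Submodule.projectionOnto W W'.toSubmodule hc a : W) : V) = a
    rw [this]
  have hP2 : ∀ b ∈ W'.toSubmodule, P b = 0 := by
    intro b hb
    have := (Submodule.projectionOnto_apply_eq_zero_iff hc (x := b)).2 hb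
    show ((Submodule.projectionOnto W W'.toSubmodule hc b : W) : V) = 0
    rw [this]
    rfl
  refine ⟨P, ?_, fun x => (Submodule.projectionOnto W W'.toSubmodule hc x).2, hP1⟩
  intro X hX
  ext v
  obtain ⟨a, ha, b, hb, rfl⟩ := hdec v
  have hXb : X b ∈ W'.toSubmodule := W'.lie_mem (x := (⟨X, hX⟩ : LL L hL)) hb
  rw [Module.End.mul_apply, Module.End.mul_apply, map_add, map_add, map_add, map_add, hP1 a ha,
    hP2 b hb, hP1 _ (hW X hX a ha), hP2 _ hXb, map_zero]

end

end Pool.Agent.Q50.SS.Weyl
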