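import Pool.Agent.Q50.SS.Det
import Pool.Agent.Q50.SS.Weyl
import Pool.Agent.Q50.LI.Cr

/-!
# Complements of subspaces which are stable under a maximal torus

Let `g` be a Lie algebra of endomorphisms of `V` whose derived algebra has a nondegenerate trace
form, let `t` be a space of diagonal operators in `g` which is its own centraliser, and let `U` be a
subspace of `V` which is stable under `t`. If the coroots act on `U` with trace zero, then `U` has a
complement which is stable under all elements of `g` which preserve `U`.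
-/

set_option linter.unusedSectionVars false

namespace Pool.Agent.Q50.SS

open Module Pool.Agent.Q50.FP Pool.Agent.W516.KC Pool.Agent.W516.KC2 Pool.Agent.Q50.LI

noncomputable section

/-- The elements of `g` which preserve `U`. -/
def stb {C V : Type*} [Field C] [AddCommGroup V] [Module C V]
    (g : Submodule C (Module.End C V)) (U : Submodule C V) : Submodule C (Module.End C V) where
  carrier := {Z | Z ∈ g ∧ ∀ u ∈ U, Z u ∈ U}
  zero_mem' := ⟨g.zero_mem, fun _ _ => U.zero_mem⟩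
  add_mem' := fun hy hz => ⟨g.add_mem hy.1 hz.1, fun u hu => U.add_mem (hy.2 u hu) (hz.2 u hu)⟩
  smul_mem' := fun r _ hz => ⟨g.smul_mem r hz.1, fun u hu => U.smul_mem r (hz.2 u hu)⟩

theorem mem_stb {C V : Type*} [Field C] [AddCommGroup V] [Module C V]
    {g : Submodule C (Module.End C V)} {U : Submodule C V} {Z : Module.End C V} :
    Z ∈ stb g U ↔ Z ∈ g ∧ ∀ u ∈ U, Z u ∈ U := Iff.rfl

theorem stb_br {C V : Type*} [Field C] [AddCommGroup V] [Module C V]
    {g : Submodule C (Module.End C V)} {U : Submodule C V}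
    (gbr : ∀ X ∈ g, ∀ Y ∈ g, X * Y - Y * X ∈ g) :
    ∀ X ∈ stb g U, ∀ Y ∈ stb g U, X * Y - Y * X ∈ stb g U := fun X hX Y hY =>
  ⟨gbr X hX.1 Y hY.1, fun u hu => U.sub_mem (hX.2 _ (hY.2 u hu)) (hY.2 _ (hX.2 u hu))⟩

section

variable {C V : Type} {ι : Type*} [Field C] [CharZero C] [IsAlgClosed C] [AddCommGroup V]
  [Module C V] [Fintype ι] [DecidableEq ι] [FiniteDimensional C V] {b : Basis ι C V}
  {t g : Submodule C (Module.End C V)} {U : Submodule C V}

theorem sq_zero {s : Module.End C V} (hs : Dg b s) (hint : ∀ i, ∃ n : ℤ, co b i s = n)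
    (h : LinearMap.trace C V (s * s) = 0) : s = 0 := by
  choose n hn using hint
  rw [trace_diag hs hs] at h
  have h1 : ((∑ i, n i * n i : ℤ) : C) = 0 := by
    rw [← h, Int.cast_sum]
    refine Finset.sum_congr rfl fun i _ => ?_
    rw [hn, Int.cast_mul]
  have h2 : ∑ i, n i * n i = 0 := by exact_mod_cast h1
  refine diag_zero hs fun i => ?_
  have h3 := (Finset.sum_eq_zero_iff_of_nonneg fun i _ => mul_self_nonneg (n i)).1 h2 i
    (Finset.mem_univ i)
  rw [hn, mul_self_eq_zero.1 h3, Int.cast_zero]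

/-- **The trace form of the stabiliser is nondegenerate.** -/
theorem stb_nondeg (ht : ∀ T ∈ t, Dg b T) (tg : t ≤ g)
    (gbr : ∀ X ∈ g, ∀ Y ∈ g, X * Y - Y * X ∈ g)
    (cent : ∀ Z ∈ g, (∀ T ∈ t, T * Z = Z * T) → Z ∈ t) (nd : TraceNondeg (der g))
    (ndt : ∀ T ∈ t, (∀ S ∈ t, LinearMap.trace C V (T * S) = 0) → T = 0)
    (hU : ∀ T ∈ t, ∀ u ∈ U, T u ∈ U)
    (htr : ∀ s ∈ t, s ∈ der g → ∀ hs : ∀ u ∈ U, s u ∈ U,
      LinearMap.trace C U (s.restrict hs) = 0) :
    Weyl.NonDeg (stb g U) := by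
  intro Z hZ hZ'
  -- the radical of the form
  let R : Submodule C (Module.End C V) :=
    { carrier := {Z | Z ∈ stb g U ∧ ∀ Y ∈ stb g U, LinearMap.trace C V (Z * Y) = 0}
      zero_mem' := ⟨Submodule.zero_mem _, fun Y _ => by rw [zero_mul, map_zero]⟩
      add_mem' := fun hy hz => ⟨Submodule.add_mem _ hy.1 hz.1, fun Y hY => by
        rw [add_mul, map_add, hy.2 Y hY, hz.2 Y hY, add_zero]⟩
      smul_mem' := fun r z hz => ⟨Submodule.smul_mem _ _ hz.1, fun Y hY => by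
        rw [smul_mul_assoc, map_smul, hz.2 Y hY, smul_zero]⟩ }
  have tk : t ≤ stb g U := fun T hT => ⟨tg hT, hU T hT⟩
  have hR : ∀ T ∈ t, ∀ Z ∈ R, T * Z - Z * T ∈ R := by
    intro T hT Z hZ
    refine ⟨stb_br gbr T (tk hT) Z hZ.1, fun Y hY => ?_⟩
    have h1 := hZ.2 _ (stb_br gbr Y hY T (tk hT))
    have h2 : LinearMap.trace C V ((T * Z - Z * T) * Y) =
        LinearMap.trace C V (Z * (Y * T - T * Y)) := by
      rw [sub_mul, mul_sub, map_sub, map_sub, mul_assoc T Z Y, LinearMap.trace_mul_comm C T,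
        mul_assoc Z Y T, mul_assoc Z T Y]
    rw [h2, h1]
  obtain ⟨S, z, hz, hz'⟩ := decomp ht hR (Z := Z) ⟨hZ, hZ'⟩
  rw [hz]
  refine Finset.sum_eq_zero fun a _ => ?_
  obtain ⟨ha, α, hα⟩ := hz' a
  generalize z a = e at ha hα
  by_contra he0
  by_cases hne : ∃ T ∈ t, α T ≠ 0
  swap
  · push Not at hne
    have h1 : e ∈ t := cent e ha.1.1 fun T hT => by
      have h2 := hα T hT
      rw [hne T hT, zero_smul] at h2
      exact sub_eq_zero.1 h2
    exact he0 (ndt e h1 fun S hS => ha.2 S (tk hS))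
  obtain ⟨T₀, hT₀, h0⟩ := hne
  obtain ⟨c, hce, hcf, hsf, -⟩ := exists_cr ht tg gbr cent nd ha.1.1 hα hT₀ h0 he0
  have hsd : c.s ∈ der g := by
    rw [← c.ef]
    exact mem_der _ c.he c.hf
  have hsU := hU c.s c.hs
  have hfU := stab_f c.ef c.se hsf (U := U) (by rw [hce]; exact ha.1.2) hsU
    (htr c.s c.hs hsd hsU)
  have h1 : LinearMap.trace C V (c.e * c.f) = 0 := by
    rw [hce]
    exact ha.2 _ ⟨c.hf, hfU⟩
  have h2 : LinearMap.trace C V (c.s * c.s) = 0 := by
    have h3 : c.s * c.s = c.s * (c.e * c.f) - c.s * (c.f * c.e) := by rw [← mul_sub, c.ef]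
    have h4 : LinearMap.trace C V (c.s * (c.f * c.e)) =
        LinearMap.trace C V (c.e * c.s * c.f) := by
      rw [← mul_assoc, LinearMap.trace_mul_comm, ← mul_assoc]
    rw [h3, map_sub, h4, ← map_sub, ← mul_assoc, ← sub_mul, c.se, smul_mul_assoc, map_smul, h1,
      smul_zero]
  have h3 := sq_zero (ht _ c.hs) c.int h2
  have h4 := c.se
  rw [h3, zero_mul, mul_zero, sub_self] at h4
  have h5 := (smul_eq_zero.1 h4.symm).resolve_left two_ne_zero
  exact he0 (hce ▸ h5)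

/-- **Complements.** -/
theorem exists_proj (ht : ∀ T ∈ t, Dg b T) (tg : t ≤ g)
    (gbr : ∀ X ∈ g, ∀ Y ∈ g, X * Y - Y * X ∈ g)
    (cent : ∀ Z ∈ g, (∀ T ∈ t, T * Z = Z * T) → Z ∈ t) (nd : TraceNondeg (der g))
    (ndt : ∀ T ∈ t, (∀ S ∈ t, LinearMap.trace C V (T * S) = 0) → T = 0)
    (hU : ∀ T ∈ t, ∀ u ∈ U, T u ∈ U)
    (htr : ∀ s ∈ t, s ∈ der g → ∀ hs : ∀ u ∈ U, s u ∈ U,
      LinearMap.trace C U (s.restrict hs) = 0) :
    ∃ P : Module.End C V, (∀ Z ∈ g, (∀ u ∈ U, Z u ∈ U) → Z * P = P * Z) ∧ (∀ x, P x ∈ U) ∧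
      ∀ x ∈ U, P x = x := by
  have hd : ∀ z ∈ stb g U, (∀ X ∈ stb g U, z * X = X * z) →
      ⨆ μ, Module.End.eigenspace z μ = ⊤ := by
    intro z hz hz'
    have h1 : z ∈ t := cent z hz.1 fun T hT => (hz' T ⟨tg hT, hU T hT⟩).symm
    have h2 := ht z h1
    rw [eq_top_iff, ← b.span_eq, Submodule.span_le]
    rintro _ ⟨i, rfl⟩
    refine (le_iSup (fun μ => Module.End.eigenspace z μ) (co b i z)) ?_
    rw [Module.End.mem_eigenspace_iff]
    exact h2.apply i
  obtain ⟨P, h1, h2, h3⟩ := Weyl.weyl (stb g U) (stb_br gbr)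
    (stb_nondeg ht tg gbr cent nd ndt hU htr) hd U fun X hX => hX.2
  exact ⟨P, fun Z hZ hZU => h1 Z ⟨hZ, hZU⟩, h2, h3⟩

end

end

end Pool.Agent.Q50.SS
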