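import Pool.Agent.Q50.SS.Tor
import Pool.Agent.Q50.SS.Gp
import Pool.Agent.Q55.Moo.Main

/-!
# Semisimplicity
-/

open CategoryTheory AlgebraicGeometry TensorProduct

universe u w

set_option linter.unusedSectionVars false

namespace Pool.Agent.Q50.SS

open Module Filter Topology Pool.Agent.H204R3.SP Pool.Agent.W516.DR
open Pool.Agent.H914 Pool.Agent.H914.VarClass Pool.Agent.H914.VarClass.Obj
  Pool.Agent.H914.WeilCohomology
open Pool.Agent.Y133.Half Pool.Agent.W516.KC Pool.Agent.W516.KC2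
open Pool.Agent.Q50.FP hiding IsTate IsAlg
open Pool.Agent.Q55 (GaloisAction SubAction Virtually TateConj tatePred)
open Pool.Agent.Q60.TD (SemisimpleAt rep rep_apply exists_good act_one ssAt_iff Stab Op stab_op
  stable_iff gr_stab ActStable)
open Pool.Agent.Q50.LI
open Pool.Agent.Q50.MTC (IsLadic LogG exists_lims)
open Pool.Agent.Q55.Moo (DetCyclotomic CyclotomicDet maschke_one)

variable {k : Type u} [Field k] {𝒱 : VarClass k} {ops : CycleOps 𝒱}
  {W E E₀ : WeilCohomology.{u, 0} ops} {X Y : 𝒱.Obj} {n : ℕ} {Γ : Type w} [Group Γ]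
  {G : GaloisAction E Γ} {G₀ : GaloisAction E₀ Γ}

/-- An endomorphism which commutes with the logarithm of `s` commutes with `s`. -/
theorem act_of_comm {s : Γ} (hs : s ∈ (G.ρ X).dom) {Y : Module.End E.K (E.H X)} {y : E.K}
    (hY : LogG G X s Y y) {P : Module.End E.K (E.H X)} (hPY : Y * P = P * Y) (x : E.H X) :
    (G.ρ X).act s (P x) = P ((G.ρ X).act s x) := by
  have hZ : Y - (y / 2) • dg E X ∈ gal G X :=
    log_mem hs fun κ _ _ φ M => (hY κ φ M).1
  have hsk := gal_skew hZ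
  have h1 : ∀ v, ∑ j, (two ((prg E X).comp P)) (Function.update v j (Y (v j))) =
      X.dim * y * (two ((prg E X).comp P)) v := by
    intro v
    rw [sum_two, two_apply, LinearMap.comp_apply, LinearMap.comp_apply]
    have h2 := hsk (P (v 0)) (v 1)
    have h3 := prg_dg (W := E) (X := X) (P (v 0)) (v 1)
    have h4 : P (Y (v 0)) = Y (P (v 0)) := (LinearMap.congr_fun hPY (v 0)).symm
    rw [LinearMap.sub_apply, LinearMap.smul_apply, LinearMap.sub_apply, LinearMap.smul_apply,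
      map_sub, map_sub, map_smul, map_smul, LinearMap.sub_apply, LinearMap.smul_apply,
      smul_eq_mul, smul_eq_mul] at h2
    rw [h4]
    linear_combination h2 + (y / 2) * h3
  have h2 := (hY (Fin 2) (two ((prg E X).comp P)) X.dim).2 h1
  rw [← sub_eq_zero]
  apply prg_nondeg
  intro v
  have h3 := h2 ![x, (G.ρ X).act s⁻¹ v]
  rw [two_apply, two_apply] at h3
  have h4 : (G.ρ X).act s ((G.ρ X).act s⁻¹ v) = v := by
    have h5 := (Ro_inv (G := G) (Y := X) hs).1
    exact LinearMap.congr_fun h5 v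
  have h5 := prg_act hs (P x) ((G.ρ X).act s⁻¹ v)
  change prg E X (P ((G.ρ X).act s x)) ((G.ρ X).act s ((G.ρ X).act s⁻¹ v)) =
    _ * prg E X (P x) ((G.ρ X).act s⁻¹ v) at h3
  rw [h4] at h3 h5
  rw [map_sub, LinearMap.sub_apply, h5, h3, sub_self]

/-- The logarithms preserve the stable subspaces. -/
theorem log_stab {ℓ : ℕ} [Fact ℓ.Prime] {e : E.K ≃+* ℚ_[ℓ]} {s : Γ}
    {Y : Module.End E.K (E.H X)} {f : ℕ → ℕ}
    (hY : ∀ (v : E.H X) (g : E.H X →ₗ[E.K] E.K), Tendsto (fun k => ((ℓ : ℚ_[ℓ]) ^ f k)⁻¹ *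
          e (g ((G.ρ X).act (s ^ (ℓ ^ f k)) v) - g v)) atTop (𝓝 (e (g (Y v)))))
    {U : Submodule E.K (E.H X)} (hs : s ∈ (G.ρ X).dom) (hU : ActStable (G.ρ X) U) :
    ∀ u ∈ U, Y u ∈ U := by
  intro u hu
  by_contra hcon
  obtain ⟨g, hg, hgU⟩ := Submodule.exists_le_ker_of_notMem hcon
  apply hg
  apply e.injective
  rw [map_zero]
  refine tendsto_nhds_unique (hY u g) (tendsto_const_nhds.congr fun k => ?_)
  have h1 : g ((G.ρ X).act (s ^ (ℓ ^ f k)) u) = 0 := hgU (hU _ (pow_mem hs _) u hu)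
  have h2 : g u = 0 := hgU hu
  rw [h1, h2, sub_self, map_zero, mul_zero]

/-- The determinant on a stable subspace and the characters of the torus. -/
theorem chr_det [Algebra E.K ℂ] {i : ℕ} (hdet : CyclotomicDet (G.ρ X) G.χ (E.gr X i) i)
    {U : Submodule E.K (E.H X)} (hUi : U ≤ E.gr X i) (hU : ActStable (G.ρ X) U) {s : Γ}
    (hs : s ∈ (G.ρ X).dom) (hsU : ∀ u ∈ U, Ro G X s u ∈ U) {φ : ℂ → ℂ} (hφ : φ ∈ Chr ℂ) :
    φ (algebraMap E.K ℂ (LinearMap.det ((Ro G X s).restrict hsU))) =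
      φ (algebraMap E.K ℂ (G.χ s)) / 2 * i * finrank E.K U := by
  obtain ⟨Δ, hΔ, h⟩ := hdet U hUi hU
  obtain ⟨M, hM, -, hMs⟩ := Subgroup.exists_pow_mem_of_index_ne_zero hΔ.index_ne_zero s
  have h1 := h _ hMs (pow_mem hs M)
  have h2 : ((((G.ρ X).act (s ^ M)).toLinearMap).restrict (hU _ (pow_mem hs M)) :
      Module.End E.K U) = ((Ro G X s).restrict hsU) ^ M := by
    have h3 : ∀ (M : ℕ) (u : U), ((((Ro G X s).restrict hsU) ^ M) u : E.H X) =
        (Ro G X s ^ M) u := by
      intro M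
      induction M with
      | zero => intro u; rw [pow_zero, pow_zero]; rfl
      | succ M ih =>
        intro u
        rw [pow_succ, pow_succ, Module.End.mul_apply, Module.End.mul_apply, ih]
        rfl
    refine LinearMap.ext fun u => Subtype.ext ?_
    rw [h3, ← Ro_pow hs]
    rfl
  rw [h2, map_pow, map_pow] at h1
  have h0 : LinearMap.det ((Ro G X s).restrict hsU) ≠ 0 := by
    intro h3
    rw [h3, zero_pow hM.ne', zero_pow two_ne_zero] at h1
    refine (pow_ne_zero _ ?_) h1.symm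
    exact Units.ne_zero _
  have h0' : algebraMap E.K ℂ (LinearMap.det ((Ro G X s).restrict hsU)) ≠ 0 := by
    rwa [Ne, map_eq_zero]
  have hx : algebraMap E.K ℂ (G.χ s) ≠ 0 := by
    rw [Ne, map_eq_zero]
    exact Units.ne_zero _
  have h3 := congrArg (fun z => φ (algebraMap E.K ℂ z)) h1
  simp only [map_pow, Units.val_pow_eq_pow_val] at h3
  rw [chr_pow hφ (pow_ne_zero _ h0'), chr_pow hφ h0', chr_pow hφ (pow_ne_zero _ hx),
    chr_pow hφ hx] at h3
  have hM' : (M : ℂ) ≠ 0 := Nat.cast_ne_zero.2 hM.ne'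
  push_cast at h3
  have h4 : (M : ℂ) * (2 * φ (algebraMap E.K ℂ (LinearMap.det ((Ro G X s).restrict hsU)))) =
      M * (i * finrank E.K U * φ (algebraMap E.K ℂ (G.χ s))) := by
    linear_combination h3
  have h5 := mul_left_cancel₀ hM' h4
  linear_combination h5 / 2

section ctr

variable [Algebra E.K ℂ]

/-- The first part of the elements of the torus. -/
theorem tor_gal {s : Γ} (hs : s ∈ (G.ρ X).dom) (p : Chr ℂ × ℂ) :
    fd ((Ro G X s).baseChange ℂ) p.1.1 - (p.1.1 (algebraMap E.K ℂ (G.χ s)) / 2) •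
      (dg E X).baseChange ℂ ∈ (bcE E X).xs (gal G X) := by
  refine (bcE E X).mem_xs.2 fun ν => ?_
  intro n M ψ hψ
  obtain ⟨h1, Δ, hΔ, h2⟩ := hψ
  obtain ⟨m, hm, _, hms⟩ := Subgroup.exists_pow_mem_of_index_ne_zero hΔ.index_ne_zero s
  set b := Module.finBasis E.K (E.H X)
  set Φ := bcm (Ω := ℂ) b ψ with hΦdef
  have hΦ : ∀ v : Fin (n + 1) → E.H X, Φ (fun j => (1 : ℂ) ⊗ₜ[E.K] v j) =
      1 * algebraMap E.K ℂ (ψ v) := fun v => by rw [one_mul]; exact bcm_one b ψ v
  have hg0 := (dat hs).g_inj (bcE E X)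
  refine ((bcE E X).kills_iff one_ne_zero hΦ).1 ?_ ν
  refine kills_tmap (g := (Ro G X s).baseChange ℂ) (N := (dg E X).baseChange ℂ)
    (x := algebraMap E.K ℂ (G.χ s)) (M := M) (m := m) ?_ hg0 hm ?_ ?_ p.1.2
  · rw [Ne, map_eq_zero]
    exact Units.ne_zero _
  · -- the degree operator
    set c : E.K := 2 * M / (n + 1) with hc
    have hn : ((n : E.K) + 1) ≠ 0 := Nat.cast_add_one_ne_zero n
    have h3 : Kills (dg E X - c • 1) ψ := by
      intro v
      rw [sum_sub_smul, sum_one, h1, Fintype.card_fin, hc]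
      push_cast
      field_simp
      ring
    have h4 : Kills ((dg E X - c • (1 : Module.End E.K (E.H X))).baseChange ℂ) Φ := by
      refine ((bcE E X).kills_iff one_ne_zero hΦ).2 fun ν => ?_
      have h5 := (bcE E X).cm_ext ν (dg E X - c • (1 : Module.End E.K (E.H X)))
      rw [h5]
      exact (kilS ψ).smul_mem _ h3
    have h6 : (dg E X - c • (1 : Module.End E.K (E.H X))).baseChange ℂ =
        (dg E X).baseChange ℂ - algebraMap E.K ℂ c • (1 : Module.End ℂ (ℂ ⊗[E.K] E.H X)) := by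
      have h7 := (bcE E X).ext_sub (dg E X) (c • (1 : Module.End E.K (E.H X)))
      have h8 := (bcE E X).ext_smul c (1 : Module.End E.K (E.H X))
      have h9 := (bcE E X).ext_one
      rw [h8, h9] at h7
      exact h7
    intro v
    have h7 := h4 v
    rw [h6] at h7
    have h8 := sum_sub_smul Φ ((dg E X).baseChange ℂ) (1 : Module.End ℂ (ℂ ⊗[E.K] E.H X))
      (algebraMap E.K ℂ c) v
    rw [sum_one, Fintype.card_fin] at h8
    have h9 := h8.symm.trans h7
    rw [sub_eq_zero] at h9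
    rw [h9, hc, map_div₀, map_mul, map_add, map_natCast, map_natCast, map_one]
    have h10 : algebraMap E.K ℂ (2 : E.K) = 2 := map_ofNat _ 2
    have h11 : ((n : ℂ) + 1) ≠ 0 := Nat.cast_add_one_ne_zero n
    rw [h10]
    push_cast
    field_simp
  · -- the group element
    have h3 : Φ.compLinearMap (fun _ => ((Ro G X s).baseChange ℂ) ^ m) =
        (((algebraMap E.K ℂ (G.χ s)) ^ m) ^ M) • Φ := by
      refine Basis.ext_multilinear (fun _ => (bcE E X).b') fun I => ?_
      rw [MultilinearMap.compLinearMap_apply, smul_apply, smul_eq_mul]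
      have h4 : ∀ j, (((Ro G X s).baseChange ℂ) ^ m) ((bcE E X).b' (I j)) =
          (1 : ℂ) ⊗ₜ[E.K] ((Ro G X s ^ m) (Module.finBasis E.K (E.H X) (I j))) := by
        intro j
        have h5 := (bcE E X).ext_pow (Ro G X s) m
        have h6 := (bcE E X).ap (Ro G X s ^ m) (Module.finBasis E.K (E.H X) (I j))
        rw [(bcE E X).b'_eq]
        change (((Ro G X s).baseChange ℂ) ^ m) ((1 : ℂ) ⊗ₜ[E.K] _) = _
        rw [← h5]
        exact h6
      have h5 : (fun j => (bcE E X).b' (I j)) = fun j =>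
          ((1 : ℂ) ⊗ₜ[E.K] (Module.finBasis E.K (E.H X) (I j)) : ℂ ⊗[E.K] E.H X) := by
        funext j
        exact (bcE E X).b'_eq _
      have h6 : (fun j => (((Ro G X s).baseChange ℂ) ^ m) ((bcE E X).b' (I j))) = fun j =>
          ((1 : ℂ) ⊗ₜ[E.K] ((Ro G X s ^ m) (Module.finBasis E.K (E.H X) (I j))) :
            ℂ ⊗[E.K] E.H X) := funext h4
      rw [h6, h5, hΦ fun j => (Ro G X s ^ m) (Module.finBasis E.K (E.H X) (I j)),
        hΦ fun j => Module.finBasis E.K (E.H X) (I j), one_mul, one_mul]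
      have h7 := h2 (s ^ m) hms (pow_mem hs m) fun j => Module.finBasis E.K (E.H X) (I j)
      have h8 : ∀ x, (G.ρ X).act (s ^ m) x = (Ro G X s ^ m) x := by
        intro x
        rw [← Ro_pow hs]
        rfl
      simp only [h8] at h7
      rw [h7, map_mul, map_pow, map_pow, Units.val_pow_eq_pow_val, map_pow]
    intro v
    exact congrArg (fun Ψ => Ψ v) h3

/-- The centred degree operator does not kill the fundamental class. -/
theorem dn_zero {r : E.K} (h3 : r • dn E X ∈ kaS E X) : r • dn E X = 0 := by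
  by_cases hd : X.dim = 0
  · have h5 : dn E X = 0 := by
      refine LinearMap.ext fun x => ?_
      refine dg_ind (p := fun x => dn E X x = (0 : Module.End E.K (E.H X)) x) ?_ ?_ x
      · intro i x hx
        rw [dn, LinearMap.sub_apply, dg_of hx, LinearMap.smul_apply, hd, Nat.cast_zero, zero_smul,
          sub_zero, LinearMap.zero_apply]
        by_cases hi : i = 0
        · rw [hi, Nat.cast_zero, zero_smul]
        · rw [E.gr_eq_bot _ _ (by omega), Submodule.mem_bot] at hx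
          rw [hx, smul_zero]
      · intro a b ha hb
        rw [map_add, map_add, ha, hb]
    rw [h5, smul_zero]
  · by_cases hr : r = 0
    · rw [hr, zero_smul]
    have hd' : (X.dim : E.K) ≠ 0 := Nat.cast_ne_zero.2 hd
    have h5 : ∀ x, E.tr X (dn E X x) = 0 := by
      intro x
      have h6 := mem_kaS.1 h3 0 0 (pw X 0).V.fundCycle (SmVar.fundCycle_mem _) (fun _ => x)
      rw [Fin.sum_univ_one, E.cl_fund, frm_apply, one_mul, mpr_apply, List.ofFn_succ,
        List.ofFn_zero, List.prod_singleton, Function.update_self] at h6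
      have h7 : E.tr X ((r • dn E X) x) = 0 := by
        rw [← h6]
        exact (congrArg _ (E.map_id X ((r • dn E X) x))).symm
      rw [LinearMap.smul_apply, map_smul, smul_eq_mul] at h7
      exact (mul_eq_zero.1 h7).resolve_left hr
    have h6 : ∀ x, E.tr X x = 0 := by
      intro x
      refine dg_ind (p := fun x => E.tr X x = 0) ?_ ?_ x
      · intro i x hx
        by_cases hi : i = 2 * X.dim
        · have h7 := h5 x
          rw [dn, LinearMap.sub_apply, dg_of hx, LinearMap.smul_apply, Module.End.one_apply,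
            ← sub_smul, map_smul, hi, smul_eq_mul] at h7
          have h8 : ((2 * X.dim : ℕ) : E.K) - X.dim ≠ 0 := by
            push_cast
            rw [two_mul, add_sub_cancel_right]
            exact hd'
          exact (mul_eq_zero.1 h7).resolve_left h8
        · exact E.tr_eq_zero hx hi
      · intro a b ha hb
        rw [map_add, ha, hb, add_zero]
    have h7 : (1 : E.H X) = 0 := E.nondeg 1 fun b => h6 _
    have h8 : dn E X = 0 := by
      refine LinearMap.ext fun x => ?_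
      rw [← mul_one (dn E X x), h7, mul_zero]
      rfl
    rw [h8, smul_zero]


/-- The scalar part of an element of the torus which is in the derived algebra. -/
theorem coef_zero {s : Γ} (hs : s ∈ (G.ρ X).dom) (cd : ∀ Z ∈ kaS E X, Z * dg E X = dg E X * Z)
    {p : Chr ℂ × ℂ} (h : tmap ((Ro G X s).baseChange ℂ) ((dg E X).baseChange ℂ)
      (algebraMap E.K ℂ (G.χ s)) (X.dim : ℂ) p ∈ der ((bcE E X).xs (gp E X))) {i : ℕ}
    {x : E.H X} (hx : x ∈ E.gr X i) (hx0 : x ≠ 0) : p.2 * ((i : ℂ) - X.dim) = 0 := by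
  have h1 : (dn E X).baseChange ℂ = (dg E X).baseChange ℂ -
      (X.dim : ℂ) • (1 : Module.End ℂ (ℂ ⊗[E.K] E.H X)) := by
    have h3 := (bcE E X).ext_sub (dg E X) ((X.dim : E.K) • (1 : Module.End E.K (E.H X)))
    have h4 := (bcE E X).ext_smul (X.dim : E.K) (1 : Module.End E.K (E.H X))
    have h5 := (bcE E X).ext_one
    rw [h4, h5, map_natCast] at h3
    exact h3
  have h2 : p.2 • (dn E X).baseChange ℂ ∈ (bcE E X).xs (kaS E X) := by
    rw [(bcE E X).der_xs] at h
    have h3 := (bcE E X).xs_mono (der_gp_le cd) h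
    have h4 := (bcE E X).xs_mono gal_le_kaS (tor_gal hs p)
    have h5 := Submodule.sub_mem _ h3 h4
    rw [tmap_apply, add_sub_cancel_left, ← h1] at h5
    exact h5
  have h3 : p.2 • (dn E X).baseChange ℂ = 0 := by
    refine (bcE E X).eq_of_cm fun ν => ?_
    have h4 := (bcE E X).mem_xs.1 h2 ν
    have h5 := (bcE E X).cm_smul_ext ν p.2 (dn E X)
    rw [h5] at h4 ⊢
    rw [dn_zero h4, (bcE E X).cm_zero]
  have h4 := LinearMap.congr_fun h3 ((1 : ℂ) ⊗ₜ[E.K] x)
  have h5 := (bcE E X).ap (dn E X) x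
  rw [LinearMap.smul_apply, h5, LinearMap.zero_apply] at h4
  have h6 : dn E X x = ((i : E.K) - X.dim) • x := by
    rw [dn, LinearMap.sub_apply, dg_of hx, LinearMap.smul_apply, Module.End.one_apply, sub_smul]
  have h7 := (bcE E X).a_smul ((i : E.K) - X.dim) x
  rw [h6, h7, smul_smul, map_sub, map_natCast, map_natCast] at h4
  refine (smul_eq_zero.1 h4).resolve_right fun h8 => hx0 ?_
  obtain ⟨ν, hν⟩ := Bc.exists_one E.K ℂ
  have h9 := (bcE E X).vc_a ν x
  rw [h8, vc_zero, hν, one_smul] at h9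
  exact h9.symm

end ctr

section main

variable [Algebra W.K E₀.K] [Algebra W.K E.K] [Algebra E₀.K ℂ] [Algebra E.K ℂ]
  [TopologicalSpace Γ] (hrat : ∀ r : W.K, ∃ q : ℚ, (q : W.K) = r) (A₀ : ArtC W E₀)
  (A : ArtC W E)

include hrat A₀ A in
/-- **Semisimplicity at every prime.** -/
theorem ss_all {ℓ : ℕ} [Fact ℓ.Prime] {e : E.K ≃+* ℚ_[ℓ]} (hX : IsLadic (G.ρ X) G.χ e)
    (hss₀ : ∀ i, SemisimpleAt G₀ X i)
    (hTC₀ : ∀ n j c, Pool.Agent.Q55.IsTate G₀ (pw X n) j c →
      c ∈ spanCycles E₀ (pw X n) (j : ℤ))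
    (hF : FrobeniusElements G₀ G X) (hdet : DetCyclotomic G X) (i : ℕ) :
    SemisimpleAt G X i := by
  obtain ⟨s, hs, cent⟩ := exists_torus hrat A₀ A hss₀ hTC₀ hF
  have nd₁ := gp_nondeg A A₀ hTC₀ hss₀ (X := X)
  have cd₁ : ∀ Z ∈ kaS E X, Z * dg E X = dg E X * Z := fun Z hZ => kaS_dg A A₀ hTC₀ hZ
  have br₁ := gp_br cd₁
  rw [ssAt_iff]
  intro U hUi hUs
  have hU : ActStable (G.ρ X) U := (stable_iff G).2 hUs
  set B := bcE E X with hB
  have hsU : ∀ u ∈ U, Ro G X s u ∈ U := fun u hu => hU s hs u hu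
  have hN : ∀ w ∈ xv B U, (dg E X).baseChange ℂ w = (i : ℂ) • w := by
    intro w hw
    unfold xv at hw
    induction hw using Submodule.span_induction with
    | mem x hx =>
      obtain ⟨u, hu, rfl⟩ := hx
      have h1 := B.ap (dg E X) u
      have h2 := B.a_smul (i : E.K) u
      rw [dg_of (hUi hu), h2, map_natCast] at h1
      exact h1
    | zero => rw [map_zero, smul_zero]
    | add x y _ _ hx hy => rw [map_add, hx, hy, smul_add]
    | smul r x _ hx => rw [map_smul, hx, smul_comm]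
  have hgU : ∀ w ∈ xv B U, (Ro G X s).baseChange ℂ w ∈ xv B U := Pool.Agent.Q50.SS.ext_stab B hsU
  have tg : torE G X s ≤ B.xs (gp E X) := (torE_le hs).trans (B.xs_mono galp_le_gp)
  obtain ⟨b, hb⟩ := (dat (G := G) (X := X) hs).tor_diag B (G.χ s : E.K) (X.dim : ℂ)
  -- the projection over the complex numbers
  have htr : ∀ S ∈ torE G X s, S ∈ der (B.xs (gp E X)) → ∀ hS : ∀ u ∈ xv B U, S u ∈ xv B U,
      LinearMap.trace ℂ (xv B U) (S.restrict hS) = 0 := by
    rintro _ ⟨p, rfl⟩ hp hS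
    rw [tor_trace (dat (G := G) (X := X) hs) B hgU hN p hS, det_xv B hsU hgU,
      chr_det (hdet i) hUi hU hs hsU p.1.2, finrank_xv, sub_self, zero_add]
    by_cases h0 : U = ⊥
    · rw [h0, finrank_bot, Nat.cast_zero, mul_zero]
    · obtain ⟨x, hx, hx0⟩ := Submodule.exists_mem_ne_zero_of_ne_bot h0
      rw [coef_zero hs cd₁ hp (hUi hx) hx0, zero_mul]
  obtain ⟨P, hP1, hP2, hP3⟩ := exists_proj hb tg (B.xs_br br₁) cent (by
    rw [B.der_xs]
    exact B.nondeg_xs nd₁) (fun T hT h0 => tor_nondeg (dat (G := G) (X := X) hs) B X.dim hT h0)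
    (tor_stab hgU hN) htr
  -- the projection over the field of coefficients
  obtain ⟨ν, hν⟩ := Bc.exists_one E.K ℂ
  set Q := B.cm ν P with hQ
  have hQ1 : ∀ Z ∈ gp E X, (∀ u ∈ U, Z u ∈ U) → Z * Q = Q * Z := by
    intro Z hZ hZU
    have h1 := hP1 _ (B.ext_mem hZ) (Pool.Agent.Q50.SS.ext_stab B hZU)
    have h2 := congrArg (B.cm ν) h1
    rwa [B.cm_ext_mul ν P Z, B.cm_mul_ext ν P Z] at h2
  have hQ2 : ∀ x, Q x ∈ U := fun x => by
    rw [hQ, B.cm_apply]
    exact vc_mem B (hP2 _) ν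
  have hQ3 : ∀ x ∈ U, Q x = x := fun x hx => by
    rw [hQ, B.cm_apply, hP3 _ (a_mem B hx), B.vc_a, hν, one_smul]
  -- the degree operator
  have hdU : ∀ u ∈ U, dg E X u ∈ U := fun u hu => by
    rw [dg_of (hUi hu)]
    exact U.smul_mem _ hu
  have hQd : dg E X * Q = Q * dg E X := by
    have h1 := hQ1 (dn E X) (galp_le_gp (G := G) dn_mem) fun u hu => by
      rw [dn, LinearMap.sub_apply, LinearMap.smul_apply, Module.End.one_apply]
      exact U.sub_mem (hdU u hu) (U.smul_mem _ hu)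
    exact LinearMap.ext fun x => comm_dg_of_dn h1 x
  -- the logarithms
  obtain ⟨Δ, hΔ, hlog⟩ := exists_lims hX
  have hact : ∀ g ∈ Δ, ∀ x, (G.ρ X).act g (Q x) = Q ((G.ρ X).act g x) := by
    intro g hg
    obtain ⟨hgX, Y, y, f, -, hYl, -, hY⟩ := hlog g hg
    have hYU := log_stab hYl hgX hU
    have hZ : Y - (y / 2) • dg E X ∈ gal G X :=
      log_mem hgX fun κ _ _ φ M => (hY κ φ M).1
    have h1 := hQ1 _ (galp_le_gp (gal_le hZ)) fun u hu => by
      rw [LinearMap.sub_apply, LinearMap.smul_apply]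
      exact U.sub_mem (hYU u hu) (U.smul_mem _ (hdU u hu))
    rw [sub_mul, mul_sub, smul_mul_assoc, mul_smul_comm, hQd] at h1
    exact act_of_comm hgX hY (sub_left_injective h1)
  -- the complement
  have := hΔ
  have hfin := (G.isGalois X).finiteIndex
  refine maschke_one (Δ.subgroupOf (G.ρ X).dom) (C := E.gr X i ⊓ LinearMap.ker Q)
    (gr_stab G X i) hUi hUs ?_ ?_ ?_
  · rw [stab_op]
    rintro ⟨g, hgX⟩ hg x ⟨hx, hx'⟩
    refine ⟨(G.isGalois X).gr_mem g hgX i x hx, ?_⟩
    change Q ((G.ρ X).act g x) = 0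
    have h1 : Q x = 0 := hx'
    rw [← hact g (Subgroup.mem_subgroupOf.1 hg), h1, map_zero]
  · rw [eq_bot_iff]
    rintro x ⟨hx, -, hx'⟩
    have h1 : Q x = 0 := hx'
    rwa [hQ3 x hx] at h1
  · apply le_antisymm (sup_le hUi inf_le_left)
    intro x hx
    refine Submodule.mem_sup.2 ⟨Q x, hQ2 x, x - Q x, ⟨?_, ?_⟩, by abel⟩
    · exact Submodule.sub_mem _ hx (hUi (hQ2 x))
    · change Q (x - Q x) = 0
      rw [map_sub, hQ3 _ (hQ2 x), sub_self]

end main

end Pool.Agent.Q50.SS
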