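import Pool.Agent.Q50.SS.Tr
import Pool.Agent.Q50.SS.Loc

/-!
# The torus of a Frobenius element and stable subspaces
-/

set_option linter.unusedSectionVars false

namespace Pool.Agent.Q50.SS

open Module Pool.Agent.Q50.FP Pool.Agent.W516.KC Pool.Agent.W516.KC2 Pool.Agent.Q50.LI

noncomputable section

variable {C : Type} [Field C] [IsAlgClosed C] [CharZero C]

section abs

variable {F V V' : Type} [Field F] [CharZero F] [Algebra F C] [AddCommGroup V] [Module F V]
  [FiniteDimensional F V] [AddCommGroup V'] [Module C V'] [FiniteDimensional C V']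
  {a : V → V'} {ext : Module.End F V → Module.End C V'} {g g' N : Module.End F V}
  {P : ℕ → Module.End F V}

theorem co_of {ι : Type*} [Fintype ι] [DecidableEq ι] {b : Basis ι C V'} {T : Module.End C V'}
    {i : ι} {c : C} (h : T (b i) = c • b i) : co b i T = c := by
  change b.repr (T (b i)) i = c
  rw [h, map_smul, b.repr_self, Finsupp.smul_apply, Finsupp.single_eq_same, smul_eq_mul, mul_one]

/-- **The trace form is nondegenerate on the torus.** -/
theorem tor_nondeg (h : Dat g g' N P) (B : Bc a ext) {x : F} (n : ℕ) {T : Module.End C V'}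
    (hT : T ∈ tor ext g N x (n : C))
    (h0 : ∀ S ∈ tor ext g N x (n : C), LinearMap.trace C V' (T * S) = 0) : T = 0 := by
  classical
  obtain ⟨b, l, m, hb⟩ := h.exists_basis B
  have hl : ∀ i, l i ≠ 0 := fun i => h.ne_zero B (b.ne_zero i) (hb i).1
  have hd : ∀ S ∈ tor ext g N x (n : C), Dg b S := by
    rintro _ ⟨p, rfl⟩ i
    exact ⟨_, h.tmap_b B (hb i).1 (hb i).2 p⟩
  obtain ⟨p, rfl⟩ := hT
  have hc : ∀ (p : Chr C × C) i, co b i (tmap (ext g) (ext N) (algebraMap F C x) n p) =
      p.1.1 (l i) - p.1.1 (algebraMap F C x) / 2 * m i + p.2 * (m i - n) := fun p i =>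
    co_of (h.tmap_b B (hb i).1 (hb i).2 p)
  refine diag_zero (hd _ ⟨p, rfl⟩) fun i => ?_
  -- rational components
  refine (Module.forall_dual_apply_eq_zero_iff ℚ _).1 fun ν => ?_
  let ν' : C → C := fun c => ((ν c : ℚ) : C)
  have hνadd : ∀ u v, ν' (u + v) = ν' u + ν' v := fun u v => by
    change ((ν (u + v) : ℚ) : C) = (ν u : ℚ) + (ν v : ℚ)
    rw [map_add, Rat.cast_add]
  have hνmul : ∀ (q : ℚ) v, ν' (q * v) = q * ν' v := fun q v => by
    change ((ν (q * v) : ℚ) : C) = q * (ν v : ℚ)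
    rw [← Rat.smul_def, map_smul, smul_eq_mul, Rat.cast_mul]
  have hφ : (fun c => ν' (p.1.1 c)) ∈ Chr C := by
    intro u v hu hv
    change ν' (p.1.1 (u * v)) = ν' (p.1.1 u) + ν' (p.1.1 v)
    rw [p.1.2 u v hu hv, hνadd]
  let p' : Chr C × C := (⟨_, hφ⟩, ν' p.2)
  have hco : ∀ i, co b i (tmap (ext g) (ext N) (algebraMap F C x) n p') =
      ν' (co b i (tmap (ext g) (ext N) (algebraMap F C x) n p)) := by
    intro i
    rw [hc, hc]
    change ν' (p.1.1 (l i)) - ν' (p.1.1 (algebraMap F C x)) / 2 * m i + ν' p.2 * (m i - n) = _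
    have h1 : p.1.1 (l i) - p.1.1 (algebraMap F C x) / 2 * m i + p.2 * (m i - n) =
        p.1.1 (l i) + ((-(m i : ℚ) / 2 : ℚ) : C) * p.1.1 (algebraMap F C x) +
          (((m i : ℚ) - n : ℚ) : C) * p.2 := by
      push_cast
      ring
    rw [h1, hνadd, hνadd, hνmul, hνmul]
    push_cast
    ring
  have h1 := h0 _ ⟨p', rfl⟩
  rw [trace_diag (hd _ ⟨p, rfl⟩) (hd _ ⟨p', rfl⟩)] at h1
  have h2 : ∑ i, ν (co b i (tmap (ext g) (ext N) (algebraMap F C x) n p)) *
      ν (co b i (tmap (ext g) (ext N) (algebraMap F C x) n p)) = 0 := by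
    have h3 := congrArg ν h1
    rw [map_zero, map_sum] at h3
    rw [← h3]
    refine Finset.sum_congr rfl fun i _ => ?_
    rw [hco]
    change _ = ν (_ * ((ν _ : ℚ) : C))
    rw [mul_comm _ ((ν _ : ℚ) : C), ← Rat.smul_def, map_smul, smul_eq_mul]
  have h3 := (Finset.sum_eq_zero_iff_of_nonneg fun i _ => mul_self_nonneg _).1 h2 i
    (Finset.mem_univ i)
  exact mul_self_eq_zero.1 h3

/-- Stability of a homogeneous subspace which is stable under `g`. -/
theorem tor_stab {x : F} {d : C} {U : Submodule C V'} (hU : ∀ u ∈ U, (ext g) u ∈ U) {i : C}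
    (hN : ∀ u ∈ U, (ext N) u = i • u) : ∀ T ∈ tor ext g N x d, ∀ u ∈ U, T u ∈ U := by
  rintro _ ⟨p, rfl⟩ u hu
  rw [tmap_apply]
  have h1 : (ext N) u ∈ U := by
    rw [hN u hu]
    exact U.smul_mem _ hu
  refine U.add_mem (U.sub_mem (fd_stab hU _ u hu) (U.smul_mem _ h1)) (U.smul_mem _ ?_)
  exact U.sub_mem h1 (U.smul_mem _ hu)

/-- The trace of an element of the torus on a homogeneous subspace which is stable under `g`. -/
theorem tor_trace (h : Dat g g' N P) (B : Bc a ext) {x : F} {d : C} {U : Submodule C V'}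
    (hU : ∀ u ∈ U, (ext g) u ∈ U) {i : C} (hN : ∀ u ∈ U, (ext N) u = i • u) (p : Chr C × C)
    (hT : ∀ u ∈ U, tmap (ext g) (ext N) (algebraMap F C x) d p u ∈ U) :
    LinearMap.trace C U ((tmap (ext g) (ext N) (algebraMap F C x) d p).restrict hT) =
      p.1.1 (LinearMap.det ((ext g).restrict hU)) -
        p.1.1 (algebraMap F C x) / 2 * i * finrank C U + p.2 * (i - d) * finrank C U := by
  have h1 : (tmap (ext g) (ext N) (algebraMap F C x) d p).restrict hT =
      (fd (ext g) p.1.1).restrict (fd_stab hU p.1.1) +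
        (-(p.1.1 (algebraMap F C x) / 2 * i) + p.2 * (i - d)) • (1 : Module.End C U) := by
    refine LinearMap.ext fun u => Subtype.ext ?_
    rw [LinearMap.coe_restrict_apply, tmap_apply, LinearMap.add_apply, LinearMap.add_apply,
      LinearMap.sub_apply, LinearMap.smul_apply, LinearMap.smul_apply, LinearMap.sub_apply,
      LinearMap.smul_apply, LinearMap.smul_apply, hN _ u.2, Submodule.coe_add,
      LinearMap.coe_restrict_apply, Submodule.coe_smul, Module.End.one_apply,
      Module.End.one_apply, ← sub_smul, smul_smul, smul_smul, add_smul, neg_smul]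
    abel
  rw [h1, map_add, map_smul, LinearMap.trace_one, fd_trace_restrict (h.g_inj B) p.1.2 hU,
    smul_eq_mul]
  ring

end abs

end

end Pool.Agent.Q50.SS
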