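import Pool.Agent.Q50.LI.Dim

/-!
# Traces on stable subspaces
-/

set_option linter.unusedSectionVars false

namespace Pool.Agent.Q50.SS

open Module Pool.Agent.Q50.FP Pool.Agent.W516.KC Pool.Agent.W516.KC2 Pool.Agent.Q50.LI

noncomputable section

section tr

variable {C V : Type} [Field C] [IsAlgClosed C] [CharZero C] [AddCommGroup V] [Module C V]
  [FiniteDimensional C V]

theorem chr_prod_mem {φ : C → C} (hφ : φ ∈ Chr C) (s : Finset C) (hs : ∀ a ∈ s, a ≠ 0)
    (k : C → ℕ) : φ (∏ a ∈ s, a ^ k a) = ∑ a ∈ s, k a * φ a := by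
  classical
  induction s using Finset.induction_on with
  | empty => rw [Finset.prod_empty, Finset.sum_empty, chr_one hφ]
  | insert a s ha ih =>
    have h0 : a ≠ 0 := hs a (Finset.mem_insert_self _ _)
    have h1 : ∀ b ∈ s, b ≠ 0 := fun b hb => hs b (Finset.mem_insert_of_mem hb)
    rw [Finset.prod_insert ha, Finset.sum_insert ha, hφ _ _ (pow_ne_zero _ h0)
      (Finset.prod_ne_zero_iff.2 fun b hb => pow_ne_zero _ (h1 b hb)), ih h1, chr_pow hφ h0]

/-- The trace of the operator attached to a character. -/
theorem fd_trace {g : Module.End C V} (hg : Function.Injective g) {φ : C → C} (hφ : φ ∈ Chr C)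
    {D : Module.End C V} (hD : ∀ a, ∀ x ∈ g.maxGenEigenspace a, D x = φ a • x) :
    LinearMap.trace C V D = φ (LinearMap.det g) := by
  classical
  have hm : ∀ a, ∀ x ∈ g.maxGenEigenspace a, D x ∈ g.maxGenEigenspace a := fun a x hx => by
    rw [hD a x hx]
    exact Submodule.smul_mem _ _ hx
  have h1 : LinearMap.trace C V D = ∑ a ∈ (fin_gen g).toFinset,
      finrank C (g.maxGenEigenspace a) * φ a := by
    rw [LinearMap.trace_eq_sum_trace_restrict' (gint g) (fin_gen g) hm]
    refine Finset.sum_congr rfl fun a _ => ?_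
    have h2 : (D.restrict (hm a) : Module.End C (g.maxGenEigenspace a)) = φ a • 1 :=
      LinearMap.ext fun x => Subtype.ext (hD a x x.2)
    rw [h2, map_smul, LinearMap.trace_one, smul_eq_mul, mul_comm]
  have h2 : LinearMap.det g = ∏ a ∈ g.charpoly.roots.toFinset, a ^ finrank C
      (g.maxGenEigenspace a) := by
    rw [Module.End.det_eq_prod_roots_charpoly_of_splits (IsAlgClosed.splits _),
      Finset.prod_multiset_count]
    refine Finset.prod_congr rfl fun a _ => ?_
    rw [Polynomial.count_roots, LinearMap.finrank_maxGenEigenspace_eq]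
  have h3 : ∀ a, a ∈ g.charpoly.roots.toFinset ↔ finrank C (g.maxGenEigenspace a) ≠ 0 := by
    intro a
    rw [Multiset.mem_toFinset, ← Multiset.count_ne_zero, Polynomial.count_roots,
      LinearMap.finrank_maxGenEigenspace_eq]
  have h4 : ∀ a ∈ g.charpoly.roots.toFinset, a ≠ 0 := by
    rintro a ha rfl
    apply (h3 0).1 ha
    rw [Submodule.finrank_eq_zero, eq_bot_iff]
    intro x hx
    rw [Module.End.mem_maxGenEigenspace] at hx
    obtain ⟨k, hk⟩ := hx
    rw [zero_smul, sub_zero] at hk
    have h5 : Function.Injective (g ^ k) := by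
      rw [Module.End.coe_pow]
      exact hg.iterate k
    rw [Submodule.mem_bot]
    exact h5 (hk.trans (map_zero _).symm)
  have h5 : (fin_gen g).toFinset = g.charpoly.roots.toFinset := by
    ext a
    rw [h3, Set.Finite.mem_toFinset, Set.mem_setOf_eq, Ne, Ne, Submodule.finrank_eq_zero]
  rw [h1, h2, h5, chr_prod_mem hφ _ h4]

/-- Subspaces which are stable under `g` are stable under the operators attached to characters. -/
theorem fd_stab {g : Module.End C V} {U : Submodule C V} (hU : ∀ u ∈ U, g u ∈ U) (φ : C → C) :
    ∀ u ∈ U, fd g φ u ∈ U := by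
  intro x hx
  have h1 : U = ⨆ c, U ⊓ g.maxGenEigenspace c :=
    Submodule.eq_iSup_inf_genEigenspace ⊤ hU (Module.End.iSup_maxGenEigenspace_eq_top _)
  rw [h1] at hx
  induction hx using Submodule.iSup_induction' with
  | mem c x hx =>
    rw [fd_apply φ hx.2]
    exact U.smul_mem _ hx.1
  | zero =>
    rw [map_zero]
    exact U.zero_mem
  | add x y _ _ hx hy =>
    rw [map_add]
    exact U.add_mem hx hy

theorem fd_trace_restrict {g : Module.End C V} (hg : Function.Injective g) {φ : C → C}
    (hφ : φ ∈ Chr C) {U : Submodule C V} (hU : ∀ u ∈ U, g u ∈ U) (h : ∀ u ∈ U, fd g φ u ∈ U) :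
    LinearMap.trace C U ((fd g φ).restrict h) = φ (LinearMap.det (g.restrict hU)) := by
  refine fd_trace (fun x y hxy => Subtype.ext (hg (congrArg Subtype.val hxy))) hφ
    fun a x hx => ?_
  have h1 : (x : V) ∈ g.maxGenEigenspace a := by
    have h2 := Module.End.genEigenspace_restrict g U ⊤ a hU
    have h3 : x ∈ Submodule.comap U.subtype (g.maxGenEigenspace a) := by
      rw [Module.End.maxGenEigenspace, ← h2]
      exact hx
    exact h3
  exact Subtype.ext (fd_apply φ h1)

end tr

section bc

variable {F K V V' : Type*} [Field F] [CharZero F] [Field K] [CharZero K] [Algebra F K]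
  [AddCommGroup V] [Module F V] [FiniteDimensional F V] [AddCommGroup V'] [Module K V']
  [FiniteDimensional K V'] {a : V → V'} {ext : Module.End F V → Module.End K V'}

/-- The extension of a subspace. -/
def xv (_ : Bc a ext) (U : Submodule F V) : Submodule K V' := Submodule.span K (a '' U)

variable (h : Bc a ext)

theorem a_mem {U : Submodule F V} {u : V} (hu : u ∈ U) : a u ∈ xv h U :=
  Submodule.subset_span ⟨u, hu, rfl⟩

theorem vc_zero (ν : K →ₗ[F] F) : h.vc ν 0 = 0 := by
  have h1 := h.vc_smul_a ν 0 0
  rwa [zero_smul, map_zero, zero_smul] at h1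

theorem vc_mem {U : Submodule F V} {w : V'} (hw : w ∈ xv h U) (ν : K →ₗ[F] F) : h.vc ν w ∈ U := by
  unfold xv at hw
  have key : ∀ c : K, h.vc ν (c • w) ∈ U := by
    induction hw using Submodule.span_induction with
    | mem x hx =>
      intro c
      obtain ⟨u, hu, rfl⟩ := hx
      rw [h.vc_smul_a]
      exact U.smul_mem _ hu
    | zero =>
      intro c
      rw [smul_zero, vc_zero]
      exact U.zero_mem
    | add x y _ _ hx hy =>
      intro c
      rw [smul_add, h.vc_add]
      exact U.add_mem (hx c) (hy c)
    | smul r x _ hx =>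
      intro c
      rw [smul_smul]
      exact hx _
  have := key 1
  rwa [one_smul] at this

theorem ext_stab {U : Submodule F V} {Z : Module.End F V} (hZ : ∀ u ∈ U, Z u ∈ U) :
    ∀ w ∈ xv h U, ext Z w ∈ xv h U := by
  intro w hw
  have hw' := hw
  unfold xv at hw'
  induction hw' using Submodule.span_induction with
  | mem x hx =>
    obtain ⟨u, hu, rfl⟩ := hx
    rw [h.ap]
    exact a_mem h (hZ u hu)
  | zero =>
    rw [map_zero]
    exact Submodule.zero_mem _
  | add x y hx' hy' hx hy =>
    rw [map_add]
    exact Submodule.add_mem _ (hx hx') (hy hy')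
  | smul r x hx' hx =>
    rw [map_smul]
    exact Submodule.smul_mem _ _ (hx hx')

theorem exists_basis_xv (U : Submodule F V) :
    ∃ β : Basis (Fin (finrank F U)) K (xv h U), ∀ j, (β j : V') = a (finBasis F U j : V) := by
  classical
  let u := Module.finBasis F U
  have hsum : ∀ (ν : K →ₗ[F] F) (s : Finset (Fin (finrank F U))) (l : Fin (finrank F U) → K),
      h.vc ν (∑ j ∈ s, l j • a (u j : V)) = ∑ j ∈ s, ν (l j) • (u j : V) := by
    intro ν s l
    induction s using Finset.induction_on with
    | empty => rw [Finset.sum_empty, Finset.sum_empty, vc_zero]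
    | insert i s hi ih => rw [Finset.sum_insert hi, Finset.sum_insert hi, h.vc_add, ih,
        h.vc_smul_a]
  have hli : LinearIndependent K fun j => a (u j : V) := by
    rw [Fintype.linearIndependent_iff]
    intro l hl j
    refine (Module.forall_dual_apply_eq_zero_iff F (l j)).1 fun ν => ?_
    have h1 := congrArg (h.vc ν) hl
    rw [hsum, vc_zero] at h1
    have h2 : ∑ j, ν (l j) • u j = 0 := by
      apply Subtype.ext
      rw [Submodule.coe_sum, Submodule.coe_zero, ← h1]
      rfl
    exact Fintype.linearIndependent_iff.1 u.linearIndependent _ h2 j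
  have hsp : xv h U = Submodule.span K (Set.range fun j => a (u j : V)) := by
    unfold xv
    apply le_antisymm
    · rw [Submodule.span_le]
      rintro _ ⟨y, hy, rfl⟩
      have h1 : y = ∑ j, u.repr ⟨y, hy⟩ j • (u j : V) := by
        have h2 := congrArg Subtype.val (u.sum_repr ⟨y, hy⟩)
        rw [Submodule.coe_sum] at h2
        exact h2.symm
      have h2 : ∀ s : Finset (Fin (finrank F U)), a (∑ j ∈ s, u.repr ⟨y, hy⟩ j •
          (u j : V)) ∈ Submodule.span K (Set.range fun j => a (u j : V)) := by
        intro s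
        induction s using Finset.induction_on with
        | empty =>
          rw [Finset.sum_empty, h.a_zero]
          exact Submodule.zero_mem _
        | insert i s hi ih =>
          rw [Finset.sum_insert hi, h.a_add, h.a_smul]
          exact Submodule.add_mem _ (Submodule.smul_mem _ _ (Submodule.subset_span ⟨i, rfl⟩)) ih
      have h3 := h2 Finset.univ
      rw [← h1] at h3
      exact h3
    · rw [Submodule.span_le]
      rintro _ ⟨j, rfl⟩
      exact Submodule.subset_span ⟨_, (u j).2, rfl⟩
  let w : Fin (finrank F U) → xv h U := fun j => ⟨a (u j : V), a_mem h (u j).2⟩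
  have hw : LinearIndependent K w :=
    LinearIndependent.of_comp (xv h U).subtype hli
  refine ⟨Basis.mk hw ?_, fun j => by rw [Basis.mk_apply]⟩
  intro x _
  have h1 : (x : V') ∈ Submodule.span K (Set.range fun j => a (u j : V)) := by
    rw [← hsp]
    exact x.2
  have h2 : Set.range (fun j => a (u j : V)) = (xv h U).subtype '' Set.range w := by
    rw [← Set.range_comp]
    rfl
  rw [h2, ← Submodule.map_span] at h1
  obtain ⟨y, hy, hyx⟩ := h1
  rwa [← Subtype.ext hyx]

theorem finrank_xv (U : Submodule F V) : finrank K (xv h U) = finrank F U := by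
  obtain ⟨β, -⟩ := exists_basis_xv h U
  rw [Module.finrank_eq_card_basis β, Fintype.card_fin]

/-- The determinant on the extension of a subspace. -/
theorem det_xv {U : Submodule F V} {Z : Module.End F V} (hZ : ∀ u ∈ U, Z u ∈ U)
    (hZ' : ∀ w ∈ xv h U, ext Z w ∈ xv h U) :
    LinearMap.det ((ext Z).restrict hZ') = algebraMap F K (LinearMap.det (Z.restrict hZ)) := by
  classical
  obtain ⟨β, hβ⟩ := exists_basis_xv h U
  rw [← LinearMap.det_toMatrix β, ← LinearMap.det_toMatrix (finBasis F U), RingHom.map_det]
  congr 1
  ext i j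
  rw [RingHom.mapMatrix_apply, Matrix.map_apply, LinearMap.toMatrix_apply,
    LinearMap.toMatrix_apply]
  have h1 : (ext Z).restrict hZ' (β j) = ∑ l, algebraMap F K
      ((finBasis F U).repr (Z.restrict hZ (finBasis F U j)) l) • β l := by
    apply Subtype.ext
    rw [LinearMap.coe_restrict_apply, hβ, h.ap, Submodule.coe_sum]
    have h2 : Z (finBasis F U j : V) = ∑ l, (finBasis F U).repr
        (Z.restrict hZ (finBasis F U j)) l • (finBasis F U l : V) := by
      have h3 := congrArg Subtype.val ((finBasis F U).sum_repr (Z.restrict hZ (finBasis F U j)))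
      rw [Submodule.coe_sum] at h3
      exact h3.symm
    have h4 : ∀ (s : Finset (Fin (finrank F U))) (l : Fin (finrank F U) → F),
        a (∑ j ∈ s, l j • (finBasis F U j : V)) =
          ∑ j ∈ s, algebraMap F K (l j) • a (finBasis F U j : V) := by
      intro s l
      induction s using Finset.induction_on with
      | empty => rw [Finset.sum_empty, Finset.sum_empty, h.a_zero]
      | insert i s hi ih =>
        rw [Finset.sum_insert hi, Finset.sum_insert hi, h.a_add, h.a_smul, ih]
    rw [h2, h4]
    refine Finset.sum_congr rfl fun l _ => ?_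
    rw [Submodule.coe_smul, hβ]
  rw [h1, map_sum, Finset.sum_apply' i, Finset.sum_eq_single i]
  · rw [map_smul, Finsupp.smul_apply, Basis.repr_self, Finsupp.single_eq_same, smul_eq_mul,
      mul_one]
  · intro l _ hl
    rw [map_smul, Finsupp.smul_apply, Basis.repr_self, Finsupp.single_eq_of_ne (Ne.symm hl),
      smul_zero]
  · intro h2
    exact absurd (Finset.mem_univ _) h2

end bc

end

end Pool.Agent.Q50.SS
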